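import Mathlib

/-!
Minimal generating sets of the kernel congruence of a homomorphism from a free commutative monoid
to the natural numbers: they are exactly the bases of a vector space, so they all have the same
cardinality.
-/

namespace Pool.Agent.WidthRel

open Finsupp

section
variable {ι : Type*} (φ : (ι →₀ ℕ) →+ ℕ)

/-- two factorizations of the same element sharing a generator -/
def Adj (a b : ι →₀ ℕ) : Prop := φ a = φ b ∧ ∃ i, a i ≠ 0 ∧ b i ≠ 0

/-- the difference of the connected components of two factorizations -/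
noncomputable def vec (a b : ι →₀ ℕ) : Quot (Adj φ) →₀ ℚ :=
  Finsupp.single (Quot.mk _ a) 1 - Finsupp.single (Quot.mk _ b) 1

/-- the relation space -/
noncomputable def relSpace : Submodule ℚ (Quot (Adj φ) →₀ ℚ) :=
  Submodule.span ℚ {v | ∃ a b, φ a = φ b ∧ v = vec φ a b}

/-- the set `σ` generates the kernel congruence -/
def Gen (σ : Set ((ι →₀ ℕ) × (ι →₀ ℕ))) : Prop :=
  addConGen (fun a b => (a, b) ∈ σ) = AddCon.ker φ

/-- the subspace spanned by a set of pairs -/
noncomputable def spanOf (σ : Set ((ι →₀ ℕ) × (ι →₀ ℕ))) : Submodule ℚ (Quot (Adj φ) →₀ ℚ) :=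
  Submodule.span ℚ ((fun x => vec φ x.1 x.2) '' σ)

variable {φ}

lemma vec_add (a b c : ι →₀ ℕ) : vec φ a b + vec φ b c = vec φ a c := by
  simp only [vec]; abel

lemma vec_self (a : ι →₀ ℕ) : vec φ a a = 0 := by simp [vec]

lemma vec_neg (a b : ι →₀ ℕ) : - vec φ a b = vec φ b a := by simp [vec]

lemma vec_of_adj {a b : ι →₀ ℕ} (h : Adj φ a b) : vec φ a b = 0 := by
  rw [vec, Quot.sound h, sub_self]

lemma vec_translate {a b : ι →₀ ℕ} (h : φ a = φ b) (c : ι →₀ ℕ) (hc : c ≠ 0) :
    vec φ (a + c) (b + c) = 0 := by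
  apply vec_of_adj
  refine ⟨by rw [map_add, map_add, h], ?_⟩
  obtain ⟨i, hi⟩ := Finsupp.ne_iff.1 hc
  simp only [Finsupp.coe_zero, Pi.zero_apply] at hi
  exact ⟨i, by simp only [Finsupp.coe_add, Pi.add_apply]; omega,
    by simp only [Finsupp.coe_add, Pi.add_apply]; omega⟩

/-- the congruence of pairs whose difference lies in a given subspace -/
def conOf (W : Submodule ℚ (Quot (Adj φ) →₀ ℚ)) : AddCon (ι →₀ ℕ) where
  r a b := φ a = φ b ∧ vec φ a b ∈ W
  iseqv :=
    { refl := fun a => ⟨rfl, by rw [vec_self]; exact W.zero_mem⟩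
      symm := fun {a b} h => ⟨h.1.symm, by rw [← vec_neg]; exact W.neg_mem h.2⟩
      trans := fun {a b c} h1 h2 => ⟨h1.1.trans h2.1, by
        rw [← vec_add a b c]; exact W.add_mem h1.2 h2.2⟩ }
  add' := by
    rintro a b c d ⟨h1, h2⟩ ⟨h3, h4⟩
    refine ⟨by rw [map_add, map_add, h1, h3], ?_⟩
    have e1 : vec φ (a + c) (b + c) ∈ W := by
      by_cases hc : c = 0
      · subst hc; simpa using h2
      · rw [vec_translate h1 c hc]; exact W.zero_mem
    have e2 : vec φ (b + c) (b + d) ∈ W := by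
      by_cases hb : b = 0
      · subst hb; simpa using h4
      · rw [add_comm b c, add_comm b d, vec_translate h3 b hb]; exact W.zero_mem
    rw [← vec_add _ (b + c) _]
    exact W.add_mem e1 e2

lemma spanOf_le_relSpace {σ : Set ((ι →₀ ℕ) × (ι →₀ ℕ))} (h : ∀ x ∈ σ, φ x.1 = φ x.2) :
    spanOf φ σ ≤ relSpace φ := by
  refine Submodule.span_le.2 ?_
  rintro _ ⟨x, hx, rfl⟩
  exact Submodule.subset_span ⟨x.1, x.2, h x hx, rfl⟩

lemma Gen.rel {σ : Set ((ι →₀ ℕ) × (ι →₀ ℕ))} (h : Gen φ σ) : ∀ x ∈ σ, φ x.1 = φ x.2 := by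
  intro x hx
  have h1 : addConGen (fun a b => (a, b) ∈ σ) x.1 x.2 := AddConGen.Rel.of _ _ hx
  rw [h] at h1
  exact (AddCon.ker_rel φ).1 h1

lemma Gen.span_eq {σ : Set ((ι →₀ ℕ) × (ι →₀ ℕ))} (h : Gen φ σ) :
    spanOf φ σ = relSpace φ := by
  refine le_antisymm (spanOf_le_relSpace h.rel) (Submodule.span_le.2 ?_)
  rintro _ ⟨a, b, hab, rfl⟩
  have h1 : addConGen (fun a b => (a, b) ∈ σ) ≤ conOf (spanOf φ σ) := by
    rw [AddCon.addConGen_le]
    intro x y hxy
    exact ⟨h.rel (x, y) hxy, Submodule.subset_span ⟨(x, y), hxy, rfl⟩⟩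
  have h2 : addConGen (fun a b => (a, b) ∈ σ) a b := by
    rw [h]; exact (AddCon.ker_rel φ).2 hab
  exact (h1 h2).2

/-- a set of relations spanning the relation space generates the congruence -/
theorem gen_of_span (hφ : ∀ i, 0 < φ (Finsupp.single i 1)) {σ : Set ((ι →₀ ℕ) × (ι →₀ ℕ))}
    (hrel : ∀ x ∈ σ, φ x.1 = φ x.2) (hspan : spanOf φ σ = relSpace φ) : Gen φ σ := by
  set c := addConGen (fun a b => (a, b) ∈ σ) with hc
  have hle : c ≤ AddCon.ker φ := by
    rw [hc, AddCon.addConGen_le]
    intro x y hxy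
    exact (AddCon.ker_rel φ).2 (hrel (x, y) hxy)
  refine le_antisymm hle ?_
  have key : ∀ n : ℕ, ∀ a b : ι →₀ ℕ, φ a = n → φ b = n → c a b := by
    intro n
    induction n using Nat.strong_induction_on with
    | _ n ih =>
      have hadj : ∀ a b : ι →₀ ℕ, Adj φ a b → φ a = n → c a b := by
        rintro a b ⟨hab, i, hai, hbi⟩ han
        have ea : a = (a - Finsupp.single i 1) + Finsupp.single i 1 := by
          rw [tsub_add_cancel_of_le]
          rw [Finsupp.single_le_iff]
          omega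
        have eb : b = (b - Finsupp.single i 1) + Finsupp.single i 1 := by
          rw [tsub_add_cancel_of_le]
          rw [Finsupp.single_le_iff]
          omega
        have hpos := hφ i
        have e1 : φ (a - Finsupp.single i 1) + φ (Finsupp.single i 1) = n := by
          rw [← map_add, ← ea, han]
        have e2 : φ (b - Finsupp.single i 1) + φ (Finsupp.single i 1) = n := by
          rw [← map_add, ← eb, ← hab, han]
        have := ih (φ (a - Finsupp.single i 1)) (by omega) (a - Finsupp.single i 1)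
          (b - Finsupp.single i 1) rfl (by omega)
        rw [ea, eb]
        exact c.add this (c.refl _)
      intro a b han hbn
      classical
      -- the indicator of the class of `a`
      let f : Quot (Adj φ) → ℚ := Quot.lift (fun x => if c a x then 1 else 0) (by
        intro x y hxy
        by_cases hx : φ x = n
        · have hcxy := hadj x y hxy hx
          have : c a x ↔ c a y := ⟨fun h => c.trans h hcxy, fun h => c.trans h (c.symm hcxy)⟩
          simp only [this]
        · have h1 : ¬ c a x := fun h => hx (((AddCon.ker_rel φ).1 (hle h)).symm.trans han)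
          have h2 : ¬ c a y := fun h => hx (hxy.1.trans
            (((AddCon.ker_rel φ).1 (hle h)).symm.trans han))
          simp only [h1, h2])
      let L : (Quot (Adj φ) →₀ ℚ) →ₗ[ℚ] ℚ := Finsupp.linearCombination ℚ f
      have hL : ∀ x y : ι →₀ ℕ, L (vec φ x y) =
          (if c a x then 1 else 0) - (if c a y then 1 else 0) := by
        intro x y
        simp only [L, vec, map_sub, Finsupp.linearCombination_single, one_smul]
        rfl
      have hzero : ∀ v ∈ spanOf φ σ, L v = 0 := by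
        intro v hv
        have : spanOf φ σ ≤ LinearMap.ker L := by
          refine Submodule.span_le.2 ?_
          rintro _ ⟨x, hx, rfl⟩
          rw [SetLike.mem_coe, LinearMap.mem_ker]
          simp only
          rw [hL]
          have hcx : c x.1 x.2 := AddConGen.Rel.of _ _ hx
          have : c a x.1 ↔ c a x.2 := ⟨fun h => c.trans h hcx, fun h => c.trans h (c.symm hcx)⟩
          simp only [this, sub_self]
        exact LinearMap.mem_ker.1 (this hv)
      have hv : vec φ a b ∈ spanOf φ σ := by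
        rw [hspan]
        exact Submodule.subset_span ⟨a, b, han.trans hbn.symm, rfl⟩
      have h1 := hzero _ hv
      rw [hL] at h1
      have h2 : c a a := c.refl a
      simp only [h2, if_true] at h1
      by_contra hcon
      simp only [hcon, if_false] at h1
      norm_num at h1
  intro a b hab
  exact key (φ a) a b rfl ((AddCon.ker_rel φ).1 hab).symm

theorem gen_iff (hφ : ∀ i, 0 < φ (Finsupp.single i 1)) {σ : Set ((ι →₀ ℕ) × (ι →₀ ℕ))} :
    Gen φ σ ↔ (∀ x ∈ σ, φ x.1 = φ x.2) ∧ spanOf φ σ = relSpace φ :=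
  ⟨fun h => ⟨h.rel, h.span_eq⟩, fun h => gen_of_span hφ h.1 h.2⟩

/-- inclusion-minimal generating sets give linearly independent families -/
theorem linearIndependent_of_minimal (hφ : ∀ i, 0 < φ (Finsupp.single i 1))
    {σ : Set ((ι →₀ ℕ) × (ι →₀ ℕ))} (h : Minimal (Gen φ) σ) :
    LinearIndependent ℚ (fun x : σ => vec φ x.1.1 x.1.2) := by
  rw [linearIndependent_iff_notMem_span]
  rintro ⟨x, hx⟩ hmem
  have hgen := h.prop
  have himg : ((fun x : σ => vec φ x.1.1 x.1.2) '' (Set.univ \ {⟨x, hx⟩})) ⊆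
      (fun x => vec φ x.1 x.2) '' (σ \ {x}) := by
    rintro _ ⟨⟨y, hy⟩, hy2, rfl⟩
    refine ⟨y, ⟨hy, fun hyx => hy2.2 ?_⟩, rfl⟩
    rw [Set.mem_singleton_iff] at hyx ⊢
    exact Subtype.ext hyx
  have hmem2 : vec φ x.1 x.2 ∈ spanOf φ (σ \ {x}) := Submodule.span_mono himg hmem
  have hspan : spanOf φ (σ \ {x}) = relSpace φ := by
    refine le_antisymm (spanOf_le_relSpace fun y hy => hgen.rel y hy.1) ?_
    rw [← hgen.span_eq]
    refine Submodule.span_le.2 ?_
    rintro _ ⟨y, hy, rfl⟩
    by_cases hyx : y = x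
    · subst hyx; exact hmem2
    · exact Submodule.subset_span ⟨y, ⟨hy, hyx⟩, rfl⟩
  have hgen2 : Gen φ (σ \ {x}) := gen_of_span hφ (fun y hy => hgen.rel y hy.1) hspan
  have := h.le_of_le hgen2 Set.sdiff_subset hx
  exact this.2 rfl

/-- the dimension bounds the size of generating sets from below -/
theorem finrank_le_encard {σ : Set ((ι →₀ ℕ) × (ι →₀ ℕ))} (h : Gen φ σ) :
    (Module.finrank ℚ (relSpace φ) : ℕ∞) ≤ σ.encard := by
  classical
  by_cases hfin : σ.Finite
  · have h1 : relSpace φ =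
        Submodule.span ℚ ((hfin.toFinset.image (fun x => vec φ x.1 x.2) : Finset _) : Set _) := by
      rw [← h.span_eq, spanOf, Finset.coe_image, Set.Finite.coe_toFinset]
    rw [h1]
    have h2 := finrank_span_finset_le_card (R := ℚ)
      (hfin.toFinset.image (fun x => vec φ x.1 x.2))
    have h3 := h2.trans Finset.card_image_le
    rw [hfin.encard_eq_coe_toFinset_card]
    exact_mod_cast h3
  · rw [Set.encard_eq_top_iff.2 hfin]
    exact le_top

/-- all inclusion-minimal generating sets have cardinality the dimension -/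
theorem encard_of_minimal (hφ : ∀ i, 0 < φ (Finsupp.single i 1))
    {σ₀ : Set ((ι →₀ ℕ) × (ι →₀ ℕ))} (h₀ : Gen φ σ₀) (hfin₀ : σ₀.Finite)
    {σ : Set ((ι →₀ ℕ) × (ι →₀ ℕ))} (h : Minimal (Gen φ) σ) :
    σ.encard = (Module.finrank ℚ (relSpace φ) : ℕ∞) := by
  have hV : Module.Finite ℚ (relSpace φ) := by
    rw [← h₀.span_eq]
    exact Module.Finite.span_of_finite ℚ (hfin₀.image _)
  have hli := linearIndependent_of_minimal hφ h
  have hrange : Submodule.span ℚ (Set.range (fun x : σ => vec φ x.1.1 x.1.2)) = relSpace φ := by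
    rw [← h.prop.span_eq, spanOf]
    congr 1
    ext v
    simp
  let b : Module.Basis σ ℚ (relSpace φ) := (Module.Basis.span hli).map
    (LinearEquiv.ofEq _ _ hrange)
  have hfσ : Finite σ := Module.Finite.finite_basis b
  rw [Module.finrank_eq_nat_card_basis b]
  have hσ : σ.Finite := hfσ
  rw [Nat.card_coe_set_eq, hσ.cast_ncard_eq]

/-- existence of inclusion-minimal generating sets -/
theorem exists_minimal {σ₀ : Set ((ι →₀ ℕ) × (ι →₀ ℕ))} (h₀ : Gen φ σ₀) (hfin₀ : σ₀.Finite) :
    ∃ σ, Minimal (Gen φ) σ := by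
  have hs : {σ : Set ((ι →₀ ℕ) × (ι →₀ ℕ)) | σ ⊆ σ₀ ∧ Gen φ σ}.Finite :=
    hfin₀.finite_subsets.subset fun σ h => h.1
  obtain ⟨σ, hle, hmin⟩ := hs.exists_le_minimal ⟨Set.Subset.refl σ₀, h₀⟩
  refine ⟨σ, hmin.prop.2, fun τ hτ hτσ => ?_⟩
  exact hmin.le_of_le ⟨hτσ.trans hmin.prop.1, hτ⟩ hτσ

end

end Pool.Agent.WidthRel
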