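import Pool.Agent.WidthRel.Upper2

/-!
The explicit generating set, part three: it generates the kernel congruence.
-/

set_option linter.unusedSectionVars false

namespace Pool.Agent.WidthRel

open Multiset

section
variable {ι : Type*} [DecidableEq ι]
variable {g : ι → ℕ} {i0 i1 : ι} {m w : ℕ}
variable {S : Type*} [AddCommMonoid S] [LinearOrder S] [IsOrderedCancelAddMonoid S]
  [WellFoundedLT S]

lemma con_cons (c : AddCon (Multiset ι)) (i : ι) {a b : Multiset ι} (h : c a b) :
    c (i ::ₘ a) (i ::ₘ b) := by
  have := c.add (c.refl {i}) h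
  rwa [Multiset.singleton_add, Multiset.singleton_add] at this

/-- generation: abstract form -/
theorem generates (G : Gens g i0 i1 m w) (ω : Multiset ι →+ S) (hω : Function.Injective ω)
    (c : AddCon (Multiset ι)) (y : ℕ → Multiset ι)
    (hy1 : ∀ b ∈ Bset g m w ω, y (tot g b) = b)
    (hy2 : ∀ a : Multiset ι, (i0 ∈ a ∨ i1 ∈ a) →
      tot g (y (tot g a)) = tot g a ∧ (i0 ∈ y (tot g a) ∨ i1 ∈ y (tot g a)))
    (hσ1 : ∀ z ∈ Zset g i0 i1 m w ω, z ∉ Bset g m w ω → c z (y (tot g z)))
    (hσ2 : ∀ a b : Multiset ι, i0 ∈ a → i1 ∈ b → tot g a = tot g b →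
      (∀ e : Multiset ι, tot g e + m + (m + w) ≠ tot g a) →
      ∃ a' b' : Multiset ι, i0 ∈ a' ∧ i1 ∈ b' ∧ tot g a' = tot g a ∧ tot g b' = tot g a ∧
        c a' b')
    (n : ℕ) : ∀ a b : Multiset ι, tot g a = n → tot g b = n → c a b := by
  induction n using Nat.strong_induction_on with
  | _ n ih =>
    have gpos : ∀ i, 0 < g i := fun i => lt_of_lt_of_le G.mpos (G.lo i)
    -- sharing a letter
    have share : ∀ (i : ι) (a b : Multiset ι), i ∈ a → i ∈ b → tot g a = n → tot g b = n →
        c a b := by
      intro i a b ha hb han hbn
      obtain ⟨a', rfl⟩ := Multiset.exists_cons_of_mem ha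
      obtain ⟨b', rfl⟩ := Multiset.exists_cons_of_mem hb
      rw [tot_cons] at han hbn
      have := gpos i
      exact con_cons c i (ih (tot g a') (by omega) a' b' rfl (by omega))
    have cross : ∀ a b : Multiset ι, i0 ∈ a → i1 ∈ b → tot g a = n → tot g b = n → c a b := by
      intro a b ha hb han hbn
      by_cases h : ∃ e : Multiset ι, tot g e + m + (m + w) = n
      · obtain ⟨e, he⟩ := h
        have hval : tot g (i0 ::ₘ i1 ::ₘ e) = n := by
          rw [tot_cons, tot_cons, G.e0, G.e1, ← he]; ring
        exact c.trans (share i0 a _ ha (by simp) han hval)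
          (share i1 _ b (by simp) hb hval hbn)
      · push Not at h
        obtain ⟨a', b', ha', hb', h1, h2, h3⟩ := hσ2 a b ha hb (han.trans hbn.symm) (by
          rwa [han])
        exact c.trans (share i0 a a' ha ha' han (h1.trans han))
          (c.trans h3 (share i1 b' b hb' hb (h2.trans han) hbn))
    have ends : ∀ a b : Multiset ι, (i0 ∈ a ∨ i1 ∈ a) → (i0 ∈ b ∨ i1 ∈ b) → tot g a = n →
        tot g b = n → c a b := by
      rintro a b (ha | ha) (hb | hb) han hbn
      · exact share i0 a b ha hb han hbn
      · exact cross a b ha hb han hbn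
      · exact c.symm (cross b a hb ha hbn han)
      · exact share i1 a b ha hb han hbn
    -- everything is equivalent to the chosen representative
    have main : ∀ a : Multiset ι, tot g a = n → c a (y n) := by
      intro a
      induction a using (InvImage.wf ω (wellFounded_lt (α := S))).induction with
      | _ a iha =>
        intro han
        by_cases hend : i0 ∈ a ∨ i1 ∈ a
        · have h2 := hy2 a hend
          rw [han] at h2
          exact ends a (y n) hend h2.2 han h2.1
        · push Not at hend
          by_cases ha0 : a = 0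
          · subst ha0
            have hB0 : (0 : Multiset ι) ∈ Bset g m w ω := by
              refine ⟨⟨fun e he => ?_, fun e he => ?_⟩, fun e he => ?_⟩
              · rw [tot_zero] at he; have := G.mpos; omega
              · rw [tot_zero] at he; have := G.mpos; omega
              · have he0 : e = 0 := by
                  by_contra hne
                  obtain ⟨i, hi⟩ := Multiset.exists_mem_of_ne_zero hne
                  obtain ⟨e', rfl⟩ := Multiset.exists_cons_of_mem hi
                  rw [tot_cons, tot_zero] at he
                  have := gpos i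
                  omega
                rw [he0]
            have := hy1 0 hB0
            rw [han] at this
            rw [this]
            exact c.refl 0
          · by_cases hz : ∀ i ∈ a, a.erase i ∈ Bset g m w ω
            · have haZ : a ∈ Zset g i0 i1 m w ω := by
                refine ⟨ha0, fun i hi => ⟨⟨?_, ?_⟩, hz i hi⟩⟩
                · rintro rfl; exact hend.1 hi
                · rintro rfl; exact hend.2 hi
              by_cases haB : a ∈ Bset g m w ω
              · have := hy1 a haB
                rw [han] at this
                rw [this]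
                exact c.refl a
              · have := hσ1 a haZ haB
                rwa [han] at this
            · push Not at hz
              obtain ⟨i, hi, hiB⟩ := hz
              have htot : g i + tot g (a.erase i) = n := by
                rw [← tot_cons, Multiset.cons_erase hi, han]
              have hlt : tot g (a.erase i) < n := by have := gpos i; omega
              have hcons : i ::ₘ a.erase i = a := Multiset.cons_erase hi
              by_cases hP : PB g m w (a.erase i)
              · -- replace by the canonical factorization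
                obtain ⟨b, hb, hbt⟩ := exists_Bset (ω := ω) hP
                have hne : ω b ≠ ω (a.erase i) := by
                  intro h
                  rw [← hω h] at hiB
                  exact hiB hb
                have hle : ω b < ω (a.erase i) := lt_of_le_of_ne (hb.2 _ hbt.symm) hne
                have hlt2 : ω (i ::ₘ b) < ω a := by
                  rw [← hcons, ω_cons, ω_cons]
                  exact add_lt_add_right hle _
                have hval : tot g (i ::ₘ b) = n := by rw [tot_cons, hbt, htot]
                have h1 : c a (i ::ₘ b) := by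
                  have := con_cons c i (ih _ hlt (a.erase i) b rfl hbt)
                  rwa [hcons] at this
                exact c.trans h1 (iha _ hlt2 hval)
              · -- an end can be subtracted
                obtain ⟨e, he, heend⟩ : ∃ e : Multiset ι, tot g e = tot g (a.erase i) ∧
                    (i0 ∈ e ∨ i1 ∈ e) := by
                  unfold PB at hP
                  rw [not_and_or] at hP
                  rcases hP with h | h
                  · push Not at h
                    obtain ⟨e, he⟩ := h
                    exact ⟨i0 ::ₘ e, by rw [tot_cons, G.e0, ← he]; ring, Or.inl (by simp)⟩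
                  · push Not at h
                    obtain ⟨e, he⟩ := h
                    exact ⟨i1 ::ₘ e, by rw [tot_cons, G.e1, ← he]; ring, Or.inr (by simp)⟩
                have h1 : c a (i ::ₘ e) := by
                  have := con_cons c i (ih _ hlt (a.erase i) e rfl he)
                  rwa [hcons] at this
                have hval : tot g (i ::ₘ e) = n := by rw [tot_cons, he, htot]
                have hend2 : i0 ∈ i ::ₘ e ∨ i1 ∈ i ::ₘ e := by
                  rcases heend with h | h
                  · exact Or.inl (Multiset.mem_cons_of_mem h)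
                  · exact Or.inr (Multiset.mem_cons_of_mem h)
                have h2 := hy2 (i ::ₘ e) hend2
                rw [hval] at h2
                exact c.trans h1 (ends _ (y n) hend2 h2.2 hval h2.1)
    intro a b han hbn
    exact c.trans (main a han) (c.symm (main b hbn))

/-- the upper bound: a generating set of the kernel with few elements, in terms of multisets -/
theorem exists_small [Fintype ι] (G : Gens g i0 i1 m w) (ω : Multiset ι →+ S)
    (hω : Function.Injective ω) (hfin : {n : ℕ | ¬ ∃ b : Multiset ι, tot g b = n}.Finite) :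
    ∃ σ : Finset (Multiset ι × Multiset ι),
      2 * σ.card + 3 * (w + 1 - Fintype.card ι) ≤ w * (w + 1) ∧
      (∀ x ∈ σ, tot g x.1 = tot g x.2) ∧
      ∀ c : AddCon (Multiset ι), (∀ x ∈ σ, c x.1 x.2) →
        ∀ a b : Multiset ι, tot g a = tot g b → c a b := by
  classical
  have hBfin := Bset_finite (m := m) (w := w) hω hfin
  have hZfin : (Zset g i0 i1 m w ω).Finite := Zset_finite hBfin
  set B := hBfin.toFinset with hB
  set Z := hZfin.toFinset with hZ
  have memB : ∀ b, b ∈ B ↔ b ∈ Bset g m w ω := fun b => by rw [hB, Set.Finite.mem_toFinset]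
  have memZ : ∀ z, z ∈ Z ↔ z ∈ Zset g i0 i1 m w ω := fun z => by
    rw [hZ, Set.Finite.mem_toFinset]
  have hcount := count_main G hω B Z memB memZ
  -- the representative function
  have hy : ∀ n : ℕ, ∃ y : Multiset ι, (∀ b ∈ Bset g m w ω, tot g b = n → y = b) ∧
      (∀ a : Multiset ι, (i0 ∈ a ∨ i1 ∈ a) → tot g a = n →
        tot g y = n ∧ (i0 ∈ y ∨ i1 ∈ y)) ∧ ((∃ a : Multiset ι, tot g a = n) → tot g y = n) := by
    intro n
    by_cases h1 : ∃ b ∈ Bset g m w ω, tot g b = n
    · obtain ⟨b, hb, hbn⟩ := h1
      refine ⟨b, fun b' hb' hb'n => Bset_inj hω hb hb' (hbn.trans hb'n.symm), ?_, fun _ => hbn⟩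
      intro a ha han
      exfalso
      have hPa : PB g m w a := PB_congr (hbn.trans han.symm) hb.1
      rcases ha with h | h
      · exact PB_not_mem0 G hPa h
      · exact PB_not_mem1 G hPa h
    · by_cases h2 : ∃ a : Multiset ι, (i0 ∈ a ∨ i1 ∈ a) ∧ tot g a = n
      · obtain ⟨a, ha, han⟩ := h2
        exact ⟨a, fun b hb hbn => absurd ⟨b, hb, hbn⟩ h1, fun _ _ _ => ⟨han, ha⟩, fun _ => han⟩
      · by_cases h3 : ∃ a : Multiset ι, tot g a = n
        · obtain ⟨a, han⟩ := h3
          exact ⟨a, fun b hb hbn => absurd ⟨b, hb, hbn⟩ h1,
            fun a' ha' ha'n => absurd ⟨a', ha', ha'n⟩ h2, fun _ => han⟩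
        · exact ⟨0, fun b hb hbn => absurd ⟨b, hb, hbn⟩ h1,
            fun a' ha' ha'n => absurd ⟨a', ha', ha'n⟩ h2, fun h => absurd h h3⟩
  choose y hyB hyE hyT using hy
  -- the connecting relations, at most one for every member of `B`
  have hp : ∀ b : Multiset ι, ∃ p : Multiset ι × Multiset ι, tot g p.1 = tot g p.2 ∧
      ∀ a a' : Multiset ι, ∀ k : ℕ, i0 ∈ a → i1 ∈ a' → tot g a = tot g a' →
        tot g a = tot g b + (k + 1) * (m + w) →
        (∀ e : Multiset ι, tot g e + m ≠ tot g b + k * (m + w)) →
        i0 ∈ p.1 ∧ i1 ∈ p.2 ∧ tot g p.1 = tot g a := by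
    intro b
    by_cases h : ∃ a a' : Multiset ι, ∃ k : ℕ, i0 ∈ a ∧ i1 ∈ a' ∧ tot g a = tot g a' ∧
        tot g a = tot g b + (k + 1) * (m + w) ∧
        (∀ e : Multiset ι, tot g e + m ≠ tot g b + k * (m + w))
    · obtain ⟨a, a', k, h0, h1, h2, h3, h4⟩ := h
      refine ⟨(a, a'), h2, ?_⟩
      intro a2 a2' k2 h02 h12 h22 h32 h42
      refine ⟨h0, h1, ?_⟩
      have hk : k = k2 := by
        rcases lt_trichotomy k k2 with hlt | heq | hgt
        · obtain ⟨e, he⟩ := chain_unique G hlt h3 h0
          exact absurd he (h42 e)
        · exact heq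
        · obtain ⟨e, he⟩ := chain_unique G hgt h32 h02
          exact absurd he (h4 e)
      simp only
      rw [h3, h32, hk]
    · refine ⟨(0, 0), rfl, ?_⟩
      intro a a' k h0 h1 h2 h3 h4
      exact absurd ⟨a, a', k, h0, h1, h2, h3, h4⟩ h
  choose p hp1 hp2 using hp
  set σ : Finset (Multiset ι × Multiset ι) :=
    (Z \ B).image (fun z => (z, y (tot g z))) ∪ B.image p with hσ
  refine ⟨σ, ?_, ?_, ?_⟩
  · have h1 : σ.card ≤ (Z \ B).card + B.card :=
      (Finset.card_union_le _ _).trans (add_le_add Finset.card_image_le Finset.card_image_le)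
    have h2 : (Z \ B).card + B.card = (Z ∪ B).card := Finset.card_sdiff_add_card Z B
    have h3 : Z ∪ B ⊆ insert 0 Z := by
      intro x hx
      rw [Finset.mem_insert]
      rcases Finset.mem_union.1 hx with h | h
      · exact Or.inr h
      · by_cases hx0 : x = 0
        · exact Or.inl hx0
        · exact Or.inr ((memZ x).2 (Bset_subset G ((memB x).1 h) hx0))
    have h4 := Finset.card_le_card h3
    have h5 := Finset.card_insert_le (0 : Multiset ι) Z
    omega
  · intro x hx
    rw [hσ, Finset.mem_union, Finset.mem_image, Finset.mem_image] at hx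
    rcases hx with ⟨z, hz, rfl⟩ | ⟨b, hb, rfl⟩
    · exact (hyT (tot g z) ⟨z, rfl⟩).symm
    · exact hp1 b
  · intro c hc a b hab
    refine generates G ω hω c y ?_ ?_ ?_ ?_ (tot g a) a b rfl hab.symm
    · intro b hb
      exact hyB (tot g b) b hb rfl
    · intro a ha
      exact hyE (tot g a) a ha rfl
    · intro z hz hzB
      refine hc (z, y (tot g z)) ?_
      rw [hσ, Finset.mem_union, Finset.mem_image]
      left
      refine ⟨z, ?_, rfl⟩
      rw [Finset.mem_sdiff, memZ, memB]
      exact ⟨hz, hzB⟩
    · intro a b ha hb hab he
      obtain ⟨b', rfl⟩ := Multiset.exists_cons_of_mem hb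
      obtain ⟨β, hβ, k, hk⟩ := descend G ω (tot g b') ⟨b', rfl⟩ (by
        intro e hme
        apply he e
        rw [hab, tot_cons, G.e1, ← hme]
        ring)
      have h1 : tot g a = tot g β + (k + 1) * (m + w) := by
        rw [hab, tot_cons, G.e1, hk]; ring
      have h2 := hp2 β a (i1 ::ₘ b') k ha hb hab h1 (by
        intro e hme
        apply he e
        rw [hab, tot_cons, G.e1, hk, ← hme]
        ring)
      refine ⟨(p β).1, (p β).2, h2.1, h2.2.1, h2.2.2, (hp1 β).symm.trans h2.2.2, ?_⟩
      refine hc (p β) ?_
      rw [hσ, Finset.mem_union, Finset.mem_image, Finset.mem_image]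
      right
      exact ⟨β, (memB β).2 hβ, rfl⟩

end

end Pool.Agent.WidthRel
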