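import Pool.Agent.WidthRel.Defs
import Pool.Agent.WidthRel.Pres
import Pool.Agent.WidthRel.Upper3

/-!
From multisets to presentations.
-/

namespace Pool.Agent.WidthRel

/-- the minimal generators generate -/
theorem closure_minGens (Γ : AddSubmonoid ℕ) : AddSubmonoid.closure (minGens Γ) = Γ := by
  refine le_antisymm ((AddSubmonoid.closure_le).2 fun n hn => hn.1) ?_
  intro n
  induction n using Nat.strong_induction_on with
  | _ n ih =>
    intro hn
    by_cases h0 : n = 0
    · rw [h0]; exact AddSubmonoid.zero_mem _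
    · by_cases hat : n ∈ minGens Γ
      · exact AddSubmonoid.subset_closure hat
      · have : ∃ a ∈ Γ, ∃ b ∈ Γ, a + b = n ∧ a ≠ 0 ∧ b ≠ 0 := by
          by_contra hcon
          push Not at hcon
          apply hat
          refine ⟨hn, h0, fun a ha b hb hab => ?_⟩
          by_contra hor
          push Not at hor
          exact hor.2 (hcon a ha b hb hab hor.1)
        obtain ⟨a, ha, b, hb, hab, ha0, hb0⟩ := this
        rw [← hab]
        exact AddSubmonoid.add_mem _ (ih a (by omega) ha) (ih b (by omega) hb)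

/-- the minimal generators are contained in every generating set -/
theorem minGens_subset (Γ : AddSubmonoid ℕ) (A : Set ℕ) (hA : AddSubmonoid.closure A = Γ) :
    minGens Γ ⊆ A := by
  intro n hn
  have key : ∀ x ∈ AddSubmonoid.closure A, x = 0 ∨ x ∈ A ∨
      ∃ a ∈ AddSubmonoid.closure A, ∃ b ∈ AddSubmonoid.closure A, a ≠ 0 ∧ b ≠ 0 ∧ a + b = x := by
    intro x hx
    induction hx using AddSubmonoid.closure_induction with
    | mem y hy => exact Or.inr (Or.inl hy)
    | zero => exact Or.inl rfl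
    | add y z hy hz ihy ihz =>
      by_cases hy0 : y = 0
      · rw [hy0, zero_add]; exact ihz
      · by_cases hz0 : z = 0
        · rw [hz0, add_zero]; exact ihy
        · exact Or.inr (Or.inr ⟨y, hy, z, hz, hy0, hz0, rfl⟩)
  have hnA : n ∈ AddSubmonoid.closure A := by rw [hA]; exact hn.1
  rcases key n hnA with h | h | ⟨a, ha, b, hb, ha0, hb0, hab⟩
  · exact absurd h hn.2.1
  · exact h
  · rw [hA] at ha hb
    rcases hn.2.2 a ha b hb hab with h | h
    · exact absurd h ha0
    · exact absurd h hb0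

theorem isLeast_minGens (Γ : AddSubmonoid ℕ) :
    IsLeast {A : Set ℕ | AddSubmonoid.closure A = Γ} (minGens Γ) :=
  ⟨closure_minGens Γ, fun A hA => minGens_subset Γ A hA⟩

/-- a numerical semigroup has finitely many minimal generators -/
theorem finite_minGens {Γ : AddSubmonoid ℕ} (h : IsNumerical Γ) : (minGens Γ).Finite := by
  have hinf : (Γ : Set ℕ).Infinite := by
    intro hfin
    exact Set.infinite_univ (by
      have := hfin.union h
      rwa [Set.union_compl_self] at this)
  obtain ⟨m, hm, hm0⟩ : ∃ m ∈ (Γ : Set ℕ), m ≠ 0 := by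
    by_contra hcon
    push Not at hcon
    exact hinf ((Set.finite_singleton 0).subset fun x hx => hcon x hx)
  refine Set.Finite.subset ((Set.finite_Iic m).union (h.image (fun n => n + m))) ?_
  intro n hn
  by_cases hnm : n ≤ m
  · exact Or.inl hnm
  · right
    refine ⟨n - m, fun hmem => ?_, by simp only; omega⟩
    rcases hn.2.2 (n - m) hmem m hm (by omega) with h1 | h1
    · omega
    · exact hm0 h1

lemma exists_multiset {Γ : AddSubmonoid ℕ} {n : ℕ} (hn : n ∈ Γ) :
    ∃ b : Multiset (minGens Γ), tot (fun x : minGens Γ => (x : ℕ)) b = n := by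
  rw [← closure_minGens Γ] at hn
  induction hn using AddSubmonoid.closure_induction with
  | mem y hy => exact ⟨{⟨y, hy⟩}, by simp [tot]⟩
  | zero => exact ⟨0, by simp⟩
  | add y z _ _ ihy ihz =>
    obtain ⟨a, ha⟩ := ihy
    obtain ⟨b, hb⟩ := ihz
    exact ⟨a + b, by rw [tot_add, ha, hb]⟩

lemma facHom_single (Γ : AddSubmonoid ℕ) (x : minGens Γ) :
    facHom Γ (Finsupp.single x 1) = (x : ℕ) := by
  simp [facHom]

lemma facHom_pos (Γ : AddSubmonoid ℕ) (x : minGens Γ) :
    0 < facHom Γ (Finsupp.single x 1) := by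
  rw [facHom_single]
  exact Nat.pos_of_ne_zero x.2.2.1

lemma facHom_toFinsupp (Γ : AddSubmonoid ℕ) [DecidableEq (minGens Γ)]
    (b : Multiset (minGens Γ)) :
    facHom Γ (Multiset.toFinsupp b) = tot (fun x : minGens Γ => (x : ℕ)) b := by
  induction b using Multiset.induction_on with
  | empty => simp
  | cons a s ih =>
    rw [← Multiset.singleton_add, map_add, map_add, ih, Multiset.toFinsupp_singleton,
      facHom_single, tot_add]
    simp [tot]

/-- the upper bound in terms of presentations, positive width -/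
theorem exists_presentation_pos {Γ : AddSubmonoid ℕ} (hΓ : IsNumerical Γ) {w : ℕ} (hw : 0 < w)
    (hwidth : HasWidth Γ w) :
    ∃ σ : Set ((minGens Γ →₀ ℕ) × (minGens Γ →₀ ℕ)), IsPresentation Γ σ ∧ σ.Finite ∧
      2 * σ.ncard + 3 * (w + 1 - (minGens Γ).ncard) ≤ w * (w + 1) := by
  classical
  obtain ⟨a, b, ha, hb, hab⟩ := hwidth
  have hfin := finite_minGens hΓ
  have : Fintype (minGens Γ) := hfin.fintype
  set g : minGens Γ → ℕ := fun x => (x : ℕ) with hg
  have G : Gens g ⟨a, ha.1⟩ ⟨b, hb.1⟩ a w :=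
    { inj := Subtype.val_injective
      mpos := Nat.pos_of_ne_zero ha.1.2.1
      wpos := hw
      e0 := rfl
      e1 := hab
      lo := fun i => ha.2 i.2
      hi := fun i => by rw [← hab]; exact hb.2 i.2 }
  let ω : Multiset (minGens Γ) →+ (MonomialOrder.lex (σ := minGens Γ)).syn :=
    ((MonomialOrder.lex (σ := minGens Γ)).toSyn.toAddMonoidHom).comp
      (Multiset.toFinsupp (α := minGens Γ)).toAddMonoidHom
  have hω : Function.Injective ω :=
    (MonomialOrder.lex (σ := minGens Γ)).toSyn.injective.comp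
      (Multiset.toFinsupp (α := minGens Γ)).injective
  have hcofin : {n : ℕ | ¬ ∃ c : Multiset (minGens Γ), tot g c = n}.Finite := by
    refine hΓ.subset fun n hn hnΓ => hn (exists_multiset hnΓ)
  obtain ⟨σ, hσ1, hσ2, hσ3⟩ := exists_small G ω hω hcofin
  refine ⟨(σ.image (fun x => (Multiset.toFinsupp x.1, Multiset.toFinsupp x.2)) : Finset _),
    ?_, Finset.finite_toSet _, ?_⟩
  · unfold IsPresentation
    set c := addConGen (fun u v : minGens Γ →₀ ℕ => (u, v) ∈
      ((σ.image (fun x => (Multiset.toFinsupp x.1, Multiset.toFinsupp x.2)) : Finset _) :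
        Set ((minGens Γ →₀ ℕ) × (minGens Γ →₀ ℕ)))) with hc
    refine le_antisymm ?_ ?_
    · rw [hc, AddCon.addConGen_le]
      intro u v huv
      rw [Finset.mem_coe, Finset.mem_image] at huv
      obtain ⟨x, hx, hxe⟩ := huv
      rw [Prod.mk.injEq] at hxe
      rw [← hxe.1, ← hxe.2]
      refine (AddCon.ker_rel _).2 ?_
      rw [facHom_toFinsupp, facHom_toFinsupp]
      exact hσ2 x hx
    · intro u v huv
      obtain ⟨u', rfl⟩ := (Multiset.toFinsupp (α := minGens Γ)).surjective u
      obtain ⟨v', rfl⟩ := (Multiset.toFinsupp (α := minGens Γ)).surjective v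
      have huv' : tot g u' = tot g v' := by
        have := (AddCon.ker_rel _).1 huv
        rwa [facHom_toFinsupp, facHom_toFinsupp] at this
      have := hσ3 (c.comap (Multiset.toFinsupp (α := minGens Γ)) (fun x y => map_add _ x y))
        (by
          intro x hx
          rw [AddCon.comap_rel]
          refine AddConGen.Rel.of _ _ ?_
          rw [Finset.mem_coe, Finset.mem_image]
          exact ⟨x, hx, rfl⟩) u' v' huv'
      rwa [AddCon.comap_rel] at this
  · rw [Set.ncard_coe_finset]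
    have h1 : (σ.image (fun x => (Multiset.toFinsupp x.1, Multiset.toFinsupp x.2))).card ≤
      σ.card := Finset.card_image_le
    have h2 : (minGens Γ).ncard = Fintype.card (minGens Γ) := by
      rw [← Nat.card_coe_set_eq, Nat.card_eq_fintype_card]
    rw [h2]
    omega

/-- width zero -/
theorem exists_presentation_zero {Γ : AddSubmonoid ℕ} (hwidth : HasWidth Γ 0) :
    IsPresentation Γ ∅ ∧ (minGens Γ).ncard = 1 := by
  obtain ⟨a, b, ha, hb, hab⟩ := hwidth
  rw [add_zero] at hab
  subst hab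
  have huniq : ∀ x : minGens Γ, x = ⟨b, hb.1⟩ := by
    intro x
    exact Subtype.ext (le_antisymm (hb.2 x.2) (ha.2 x.2))
  have hset : minGens Γ = {b} := by
    ext x
    rw [Set.mem_singleton_iff]
    exact ⟨fun hx => le_antisymm (hb.2 hx) (ha.2 hx), fun hx => hx ▸ hb.1⟩
  refine ⟨?_, by rw [hset, Set.ncard_singleton]⟩
  unfold IsPresentation
  refine le_antisymm ?_ ?_
  · rw [AddCon.addConGen_le]
    intro x y hxy
    exact absurd hxy (Set.notMem_empty _)
  · intro u v huv
    have hval := (AddCon.ker_rel _).1 huv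
    have hu : ∀ f : minGens Γ →₀ ℕ, f = Finsupp.single ⟨b, hb.1⟩ (f ⟨b, hb.1⟩) := by
      intro f
      ext x
      rw [huniq x]
      simp
    have hf : ∀ f : minGens Γ →₀ ℕ, facHom Γ f = f ⟨b, hb.1⟩ * b := by
      intro f
      conv_lhs => rw [hu f]
      simp [facHom]
    rw [hf, hf] at hval
    have hb0 : 0 < b := Nat.pos_of_ne_zero hb.1.2.1
    have heq := Nat.eq_of_mul_eq_mul_right hb0 hval
    have : u = v := by rw [hu u, hu v, heq]
    rw [this]
    exact AddCon.refl _ v

theorem ncard_minGens_le {Γ : AddSubmonoid ℕ} {w : ℕ} (hwidth : HasWidth Γ w) :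
    (minGens Γ).ncard ≤ w + 1 := by
  obtain ⟨a, b, ha, hb, hab⟩ := hwidth
  have hsub : minGens Γ ⊆ (Finset.Icc a b : Finset ℕ) := by
    intro x hx
    rw [Finset.coe_Icc]
    exact ⟨ha.2 hx, hb.2 hx⟩
  have h1 := Set.ncard_le_ncard hsub (Finset.finite_toSet _)
  rw [Set.ncard_coe_finset, Nat.card_Icc] at h1
  omega

/-- the upper bound in terms of presentations -/
theorem exists_presentation {Γ : AddSubmonoid ℕ} (hΓ : IsNumerical Γ) {w : ℕ}
    (hwidth : HasWidth Γ w) :
    ∃ σ : Set ((minGens Γ →₀ ℕ) × (minGens Γ →₀ ℕ)), IsPresentation Γ σ ∧ σ.Finite ∧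
      2 * σ.ncard + 3 * (w + 1 - (minGens Γ).ncard) ≤ w * (w + 1) := by
  rcases Nat.eq_zero_or_pos w with rfl | hw
  · obtain ⟨h1, h2⟩ := exists_presentation_zero hwidth
    exact ⟨∅, h1, Set.finite_empty, by rw [h2]; simp⟩
  · exact exists_presentation_pos hΓ hw hwidth

/-- every numerical semigroup has a width -/
theorem exists_width {Γ : AddSubmonoid ℕ} (hΓ : IsNumerical Γ) : ∃ w, HasWidth Γ w := by
  have hfin := finite_minGens hΓ
  have hne : (minGens Γ).Nonempty := by
    by_contra hcon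
    rw [Set.not_nonempty_iff_eq_empty] at hcon
    have h1 := closure_minGens Γ
    rw [hcon, AddSubmonoid.closure_empty] at h1
    have h2 : ((⊥ : AddSubmonoid ℕ) : Set ℕ)ᶜ.Finite := by rw [h1]; exact hΓ
    refine Set.infinite_univ (α := ℕ) ?_
    have h3 := h2.union (Set.finite_singleton 0)
    refine h3.subset fun x _ => ?_
    by_cases hx : x = 0
    · exact Or.inr hx
    · exact Or.inl (fun hmem => hx (AddSubmonoid.mem_bot.1 hmem))
  obtain ⟨b, hb⟩ := hfin.exists_maximal hne
  have hb' : IsGreatest (minGens Γ) b := by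
    refine ⟨hb.prop, fun x hx => ?_⟩
    rcases le_total x b with h | h
    · exact h
    · exact hb.le_of_ge hx h
  have ha' : IsLeast (minGens Γ) (sInf (minGens Γ)) := ⟨Nat.sInf_mem hne, fun x hx => Nat.sInf_le hx⟩
  exact ⟨b - sInf (minGens Γ), _, b, ha', hb', by have := ha'.2 hb'.1; omega⟩

/-- the number of minimal relations is the dimension of the relation space -/
theorem rho_eq {Γ : AddSubmonoid ℕ} (hΓ : IsNumerical Γ) :
    rho Γ = (Module.finrank ℚ (relSpace (facHom Γ)) : ℕ∞) := by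
  obtain ⟨w, hw⟩ := exists_width hΓ
  obtain ⟨σ₀, h₀, hfin₀, -⟩ := exists_presentation hΓ hw
  obtain ⟨σ, hσ⟩ := exists_minimal (φ := facHom Γ) h₀ hfin₀
  have h1 := encard_of_minimal (facHom_pos Γ) h₀ hfin₀ hσ
  refine le_antisymm ?_ ?_
  · rw [← h1]
    exact iInf_le (fun σ : {σ // IsPresentation Γ σ} => σ.1.encard) ⟨σ, hσ.prop⟩
  · exact le_iInf fun σ => finrank_le_encard σ.2

theorem minimal_presentation {Γ : AddSubmonoid ℕ} (hΓ : IsNumerical Γ) :
    (∃ σ, IsMinimalPresentation Γ σ) ∧ ∀ σ, IsMinimalPresentation Γ σ → σ.encard = rho Γ := by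
  obtain ⟨w, hw⟩ := exists_width hΓ
  obtain ⟨σ₀, h₀, hfin₀, -⟩ := exists_presentation hΓ hw
  refine ⟨exists_minimal (φ := facHom Γ) h₀ hfin₀, fun σ hσ => ?_⟩
  rw [rho_eq hΓ]
  exact encard_of_minimal (facHom_pos Γ) h₀ hfin₀ hσ

/-- the refined upper bound -/
theorem rho_le {Γ : AddSubmonoid ℕ} (hΓ : IsNumerical Γ) {w : ℕ} (hw : HasWidth Γ w) :
    ∃ r : ℕ, rho Γ = r ∧ 2 * r + 3 * (w + 1 - (minGens Γ).ncard) ≤ w * (w + 1) := by
  obtain ⟨σ₀, h₀, hfin₀, hcard⟩ := exists_presentation hΓ hw
  refine ⟨_, rho_eq hΓ, ?_⟩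
  have h1 := finrank_le_encard (φ := facHom Γ) h₀
  rw [← hfin₀.cast_ncard_eq] at h1
  have h2 : Module.finrank ℚ (relSpace (facHom Γ)) ≤ σ₀.ncard := by exact_mod_cast h1
  omega

end Pool.Agent.WidthRel
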