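import Mathlib

/-!
Combinatorial core of the width bound for numerical semigroups: counting multisets all of whose
one-letter deletions lie in a given family of canonical multisets.
-/

set_option linter.unusedSectionVars false

namespace Pool.Agent.WidthRel

open Multiset

variable {ι : Type*}

/-- total offset of a multiset of letters -/
def tot (δ : ι → ℕ) (b : Multiset ι) : ℕ := (b.map δ).sum

@[simp] lemma tot_zero (δ : ι → ℕ) : tot δ 0 = 0 := rfl

@[simp] lemma tot_cons (δ : ι → ℕ) (a : ι) (b : Multiset ι) :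
    tot δ (a ::ₘ b) = δ a + tot δ b := by simp [tot]

@[simp] lemma tot_add (δ : ι → ℕ) (a b : Multiset ι) :
    tot δ (a + b) = tot δ a + tot δ b := by simp [tot]

@[simp] lemma tot_replicate (δ : ι → ℕ) (a : ι) (k : ℕ) :
    tot δ (replicate k a) = k * δ a := by simp [tot]

/-- the class modulo `w` of a multiset of letters -/
def cls (w : ℕ) (δ : ι → ℕ) (b : Multiset ι) : ZMod w := (tot δ b : ZMod w)

@[simp] lemma cls_zero (w : ℕ) (δ : ι → ℕ) : cls w δ 0 = 0 := by simp [cls]

@[simp] lemma cls_cons (w : ℕ) (δ : ι → ℕ) (a : ι) (b : Multiset ι) :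
    cls w δ (a ::ₘ b) = (δ a : ZMod w) + cls w δ b := by simp [cls]

@[simp] lemma cls_add (w : ℕ) (δ : ι → ℕ) (a b : Multiset ι) :
    cls w δ (a + b) = cls w δ a + cls w δ b := by simp [cls]

@[simp] lemma cls_singleton (w : ℕ) (δ : ι → ℕ) (a : ι) :
    cls w δ {a} = (δ a : ZMod w) := by simp [cls, tot]

@[simp] lemma cls_replicate (w : ℕ) (δ : ι → ℕ) (a : ι) (k : ℕ) :
    cls w δ (replicate k a) = (k : ZMod w) * (δ a : ZMod w) := by simp [cls]

/-- the set of classes of sub-multisets -/
def subs (w : ℕ) (δ : ι → ℕ) (y : Multiset ι) : Finset (ZMod w) :=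
  (y.powerset.map (cls w δ)).toFinset

lemma mem_subs {w : ℕ} {δ : ι → ℕ} {y : Multiset ι} {x : ZMod w} :
    x ∈ subs w δ y ↔ ∃ p ≤ y, cls w δ p = x := by
  simp [subs]

lemma subs_cons {w : ℕ} {δ : ι → ℕ} (a : ι) (y : Multiset ι) :
    subs w δ (a ::ₘ y) = subs w δ y ∪ (subs w δ y).image (fun x => (δ a : ZMod w) + x) := by
  ext x
  simp only [subs, powerset_cons, Multiset.map_add, Multiset.map_map, Function.comp_apply,
    mem_toFinset, Multiset.mem_add, Multiset.mem_map, mem_powerset, Finset.mem_union,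
    Finset.mem_image, cls_cons]
  constructor
  · rintro (⟨p, hp, rfl⟩ | ⟨p, hp, rfl⟩)
    · exact Or.inl ⟨p, hp, rfl⟩
    · exact Or.inr ⟨_, ⟨p, hp, rfl⟩, rfl⟩
  · rintro (⟨p, hp, rfl⟩ | ⟨_, ⟨p, hp, rfl⟩, rfl⟩)
    · exact Or.inl ⟨p, hp, rfl⟩
    · exact Or.inr ⟨p, hp, rfl⟩

/-- translating a finite set of classes: if two different elements are not hit by the
translate, then the union has at least two more elements -/
lemma card_union_translate {w : ℕ} (A : Finset (ZMod w)) (d x y : ZMod w) (hxy : x ≠ y)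
    (hx : x ∈ A) (hy : y ∈ A) (hx' : ∀ a ∈ A, d + a ≠ x) (hy' : ∀ a ∈ A, d + a ≠ y) :
    A.card + 2 ≤ (A ∪ A.image (fun a => d + a)).card := by
  have hinj : Function.Injective (fun a : ZMod w => d + a) := fun a b h => by simpa using h
  have hc : (A.image (fun a => d + a)).card = A.card := Finset.card_image_of_injective _ hinj
  have h1 : (({x, y} : Finset (ZMod w)) ∪ A.image (fun a => d + a)) ⊆
      A ∪ A.image (fun a => d + a) := by
    intro t ht
    simp only [Finset.mem_union, Finset.mem_insert, Finset.mem_singleton] at ht ⊢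
    rcases ht with (rfl | rfl) | ht
    · exact Or.inl hx
    · exact Or.inl hy
    · exact Or.inr ht
  have h2 : Disjoint ({x, y} : Finset (ZMod w)) (A.image (fun a => d + a)) := by
    rw [Finset.disjoint_left]
    intro t ht ht'
    simp only [Finset.mem_insert, Finset.mem_singleton, Finset.mem_image] at ht ht'
    obtain ⟨a, ha, rfl⟩ := ht'
    rcases ht with h | h
    · exact hx' a ha h
    · exact hy' a ha h
  calc A.card + 2 = ({x, y} : Finset (ZMod w)).card + (A.image (fun a => d + a)).card := by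
        rw [Finset.card_pair hxy, hc]; ring
    _ = (({x, y} : Finset (ZMod w)) ∪ A.image (fun a => d + a)).card :=
        (Finset.card_union_of_disjoint h2).symm
    _ ≤ _ := Finset.card_le_card h1

/-- a multiset with two different letters without zero sub-sums and without sub-sums equal to a
letter has many sub-sums -/
theorem two_mul_card_le_subs (w : ℕ) (δ : ι → ℕ) (i j : ι)
    (hij : (δ i : ZMod w) ≠ δ j) (t : Multiset ι)
    (h1 : ∀ p ≤ i ::ₘ j ::ₘ t, p ≠ 0 → cls w δ p ≠ 0)
    (h2 : ∀ p ≤ i ::ₘ j ::ₘ t, 2 ≤ card p → ∀ l ∈ i ::ₘ j ::ₘ t, cls w δ p ≠ δ l) :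
    2 * (card t + 2) ≤ (subs w δ (i ::ₘ j ::ₘ t)).card := by
  induction t using Multiset.induction_on with
  | empty =>
    have hi : (δ i : ZMod w) ≠ 0 := by
      have := h1 {i} (by simp) (by simp)
      simpa using this
    have hj : (δ j : ZMod w) ≠ 0 := by
      have := h1 {j} (by simp) (by simp)
      simpa using this
    have hs : (δ i : ZMod w) + δ j ≠ 0 := by
      have := h1 (i ::ₘ j ::ₘ 0) le_rfl (Multiset.cons_ne_zero)
      rwa [cls_cons, cls_cons, cls_zero, add_zero] at this
    have hsub : ({0, (δ i : ZMod w), (δ j : ZMod w), (δ i : ZMod w) + δ j} : Finset (ZMod w)) ⊆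
        subs w δ (i ::ₘ j ::ₘ 0) := by
      intro x hx
      simp only [Finset.mem_insert, Finset.mem_singleton] at hx
      rw [mem_subs]
      rcases hx with rfl | rfl | rfl | rfl
      · exact ⟨0, by simp, by simp⟩
      · exact ⟨{i}, by simp, by simp⟩
      · exact ⟨{j}, by simp, by simp⟩
      · exact ⟨_, le_rfl, by rw [cls_cons, cls_cons, cls_zero, add_zero]⟩
    have hc : ({0, (δ i : ZMod w), (δ j : ZMod w), (δ i : ZMod w) + δ j} :
        Finset (ZMod w)).card = 4 := by
      rw [Finset.card_insert_of_notMem, Finset.card_insert_of_notMem,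
        Finset.card_insert_of_notMem, Finset.card_singleton]
      · simpa using hi
      · simp only [Finset.mem_insert, Finset.mem_singleton, not_or]
        exact ⟨hij, by simpa using hj⟩
      · simp only [Finset.mem_insert, Finset.mem_singleton, not_or]
        exact ⟨hi.symm, hj.symm, hs.symm⟩
    calc 2 * (card (0 : Multiset ι) + 2) = 4 := by simp
      _ ≤ _ := by rw [← hc]; exact Finset.card_le_card hsub
  | cons k t ih =>
    have hle : i ::ₘ j ::ₘ t ≤ i ::ₘ j ::ₘ k ::ₘ t :=
      Multiset.cons_le_cons _ (Multiset.cons_le_cons _ (Multiset.le_cons_self t k))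
    have hmem : ∀ l ∈ i ::ₘ j ::ₘ t, l ∈ i ::ₘ j ::ₘ k ::ₘ t := fun l hl =>
      Multiset.mem_of_le hle hl
    have ih' := ih (fun p hp => h1 p (hp.trans hle))
      (fun p hp hc l hl => h2 p (hp.trans hle) hc l (hmem l hl))
    have hperm : i ::ₘ j ::ₘ k ::ₘ t = k ::ₘ i ::ₘ j ::ₘ t := by
      rw [Multiset.cons_swap j k, Multiset.cons_swap i k]
    rw [hperm] at h1 h2 ⊢
    rw [subs_cons]
    -- pick a letter different from `k`
    obtain ⟨f, hf, hfk⟩ : ∃ f ∈ i ::ₘ j ::ₘ t, (δ f : ZMod w) ≠ δ k := by
      by_cases h : (δ i : ZMod w) = δ k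
      · exact ⟨j, by simp, fun h' => hij (h.trans h'.symm)⟩
      · exact ⟨i, by simp, h⟩
    have hf0 : (δ f : ZMod w) ≠ 0 := by
      have := h1 {f} (by
        rw [Multiset.singleton_le]; exact Multiset.mem_cons_of_mem hf) (by simp)
      simpa using this
    have key := card_union_translate (subs w δ (i ::ₘ j ::ₘ t)) (δ k : ZMod w) 0 (δ f : ZMod w)
      hf0.symm (mem_subs.2 ⟨0, by simp, by simp⟩)
      (mem_subs.2 ⟨{f}, by rw [Multiset.singleton_le]; exact hf, by simp⟩)
      (by
        intro a ha h0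
        obtain ⟨p, hp, rfl⟩ := mem_subs.1 ha
        exact h1 (k ::ₘ p) (Multiset.cons_le_cons k hp) (by simp) (by simpa using h0))
      (by
        intro a ha h0
        obtain ⟨p, hp, rfl⟩ := mem_subs.1 ha
        have hp0 : p ≠ 0 := by
          rintro rfl
          simp at h0
          exact hfk h0.symm
        have hcard : 2 ≤ card (k ::ₘ p) := by
          rw [Multiset.card_cons]
          have := Multiset.card_pos.2 hp0
          omega
        exact h2 (k ::ₘ p) (Multiset.cons_le_cons k hp) hcard f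
          (Multiset.mem_cons_of_mem hf) (by simpa using h0))
    calc 2 * (card (k ::ₘ t) + 2) = 2 * (card t + 2) + 2 := by
          rw [Multiset.card_cons]; ring
      _ ≤ _ := by
          refine le_trans ?_ key
          omega

end Pool.Agent.WidthRel
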