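import Pool.Agent.WidthRel.Core

/-!
Counting part: a weighted double count of the one-letter extensions.
-/

set_option linter.unusedSectionVars false

namespace Pool.Agent.WidthRel

open Multiset

/-- an element `x` of a finite antichain in `ℕ × ℕ` bounds its cardinality -/
theorem card_le_of_antichain {α : Type*} [DecidableEq α] (S : Finset α) (u v : α → ℕ)
    (h : ∀ x ∈ S, ∀ y ∈ S, u x ≤ u y → v x ≤ v y → x = y) (x : α) (hx : x ∈ S) :
    S.card ≤ u x + v x + 1 := by
  have hsub : S ⊆ insert x (S.filter (fun y => v y < v x) ∪ S.filter (fun y => u y < u x)) := by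
    intro y hy
    by_cases hyx : y = x
    · simp [hyx]
    · rw [Finset.mem_insert, Finset.mem_union, Finset.mem_filter, Finset.mem_filter]
      right
      by_cases hv : v y < v x
      · exact Or.inl ⟨hy, hv⟩
      · right
        refine ⟨hy, ?_⟩
        by_contra hu
        exact hyx (h x hx y hy (by omega) (by omega)).symm
  have hV : (S.filter (fun y => v y < v x)).card ≤ v x := by
    have : (S.filter (fun y => v y < v x)).card ≤ (Finset.range (v x)).card := by
      refine Finset.card_le_card_of_injOn v ?_ ?_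
      · intro y hy
        simp only [Finset.coe_filter, Set.mem_ofPred_eq] at hy
        simpa using hy.2
      · intro y hy z hz hyz
        simp only [Finset.coe_filter, Set.mem_ofPred_eq] at hy hz
        rcases le_total (u y) (u z) with h' | h'
        · exact h y hy.1 z hz.1 h' hyz.le
        · exact (h z hz.1 y hy.1 h' hyz.ge).symm
    simpa using this
  have hU : (S.filter (fun y => u y < u x)).card ≤ u x := by
    have : (S.filter (fun y => u y < u x)).card ≤ (Finset.range (u x)).card := by
      refine Finset.card_le_card_of_injOn u ?_ ?_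
      · intro y hy
        simp only [Finset.coe_filter, Set.mem_ofPred_eq] at hy
        simpa using hy.2
      · intro y hy z hz hyz
        simp only [Finset.coe_filter, Set.mem_ofPred_eq] at hy hz
        rcases le_total (v y) (v z) with h' | h'
        · exact h y hy.1 z hz.1 hyz.le h'
        · exact (h z hz.1 y hy.1 hyz.ge h').symm
    simpa using this
  have h3 := Finset.card_le_card hsub
  have h4 := Finset.card_insert_le x
    (S.filter (fun y => v y < v x) ∪ S.filter (fun y => u y < u x))
  have h5 := Finset.card_union_le (S.filter (fun y => v y < v x)) (S.filter (fun y => u y < u x))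
  omega

/-- the hypotheses of the combinatorial core -/
structure CoreHyp {ι : Type*} [DecidableEq ι] (w : ℕ) (D : Finset ι) (δ : ι → ℕ)
    (P : Multiset ι → Prop) (U V : Multiset ι → ℕ) (B Z : Finset (Multiset ι)) : Prop where
  hinj : ∀ i ∈ D, ∀ j ∈ D, (δ i : ZMod w) = δ j → i = j
  hne : ∀ i ∈ D, (δ i : ZMod w) ≠ 0
  hdown : ∀ b, P b → ∀ p ≤ b, P p
  h1 : ∀ b, P b → b ≠ 0 → cls w δ b ≠ 0
  h2 : ∀ b, P b → 2 ≤ card b → ∀ i ∈ D, cls w δ b ≠ δ i
  hB : ∀ b ∈ B, P b
  hBD : ∀ b ∈ B, ∀ i ∈ b, i ∈ D
  hUV : ∀ b ∈ B, b ≠ 0 → U b + V b + 1 = card b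
  hanti : ∀ b ∈ B, ∀ c ∈ B, b ≠ 0 → c ≠ 0 → cls w δ b = cls w δ c →
    U b ≤ U c → V b ≤ V c → b = c
  hZ : ∀ z ∈ Z, z ≠ 0 ∧ ∀ i ∈ z, i ∈ D ∧ z.erase i ∈ B

variable {ι : Type*} [DecidableEq ι] {w : ℕ} {D : Finset ι} {δ : ι → ℕ}
  {P : Multiset ι → Prop} {U V : Multiset ι → ℕ} {B Z : Finset (Multiset ι)}

/-- the missing classes -/
def missing (w : ℕ) [NeZero w] (D : Finset ι) (δ : ι → ℕ) : Finset (ZMod w) :=
  Finset.univ \ insert 0 (D.image (fun i => (δ i : ZMod w)))

lemma mem_missing [NeZero w] {x : ZMod w} :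
    x ∈ missing w D δ ↔ x ≠ 0 ∧ ∀ i ∈ D, x ≠ δ i := by
  simp only [missing, Finset.mem_sdiff, Finset.mem_univ, true_and, Finset.mem_insert,
    Finset.mem_image, not_or, not_exists, not_and]
  constructor
  · rintro ⟨h1, h2⟩
    exact ⟨h1, fun i hi h => h2 i hi h.symm⟩
  · rintro ⟨h1, h2⟩
    exact ⟨h1, fun i hi h => h2 i hi h.symm⟩

namespace CoreHyp

lemma card_image (H : CoreHyp w D δ P U V B Z) :
    (D.image (fun i => (δ i : ZMod w))).card = D.card :=
  Finset.card_image_of_injOn (fun i hi j hj h => H.hinj i hi j hj h)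

lemma card_missing [NeZero w] (H : CoreHyp w D δ P U V B Z) :
    (missing w D δ).card + D.card + 1 = w := by
  have h0 : (0 : ZMod w) ∉ D.image (fun i => (δ i : ZMod w)) := by
    intro h
    obtain ⟨i, hi, hi0⟩ := Finset.mem_image.1 h
    exact H.hne i hi hi0
  have h1 : (insert 0 (D.image (fun i => (δ i : ZMod w)))).card = D.card + 1 := by
    rw [Finset.card_insert_of_notMem h0, H.card_image]
  have h2 := Finset.card_sdiff_add_card_eq_card
    (Finset.subset_univ (insert 0 (D.image (fun i => (δ i : ZMod w)))))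
  rw [h1, Finset.card_univ, ZMod.card] at h2
  rw [missing]
  omega

lemma P_of_lt (H : CoreHyp w D δ P U V B Z) {z : Multiset ι} (hz : z ∈ Z) {p : Multiset ι}
    (hp : p < z) : P p := by
  obtain ⟨a, ha⟩ := Multiset.lt_iff_cons_le.1 hp
  have haz : a ∈ z := Multiset.mem_of_le ha (Multiset.mem_cons_self a p)
  have h1 : p ≤ z.erase a := by
    have := Multiset.erase_le_erase a ha
    rwa [Multiset.erase_cons_head] at this
  exact H.hdown _ (H.hB _ ((H.hZ z hz).2 a haz).2) p h1

/-- a member of `Z` with two different letters and length at least three forces many missing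
classes -/
theorem length_bound [NeZero w] (H : CoreHyp w D δ P U V B Z) (k i j : ι) (t : Multiset ι)
    (hz : k ::ₘ i ::ₘ j ::ₘ t ∈ Z) (hij : i ≠ j) :
    2 * (card t + 2) ≤ (missing w D δ).card + 2 := by
  set y := i ::ₘ j ::ₘ t with hy
  have hylt : y < k ::ₘ y := Multiset.lt_cons_self y k
  have hD : ∀ l ∈ k ::ₘ y, l ∈ D := fun l hl => ((H.hZ _ hz).2 l hl).1
  have hiD : i ∈ D := hD i (by simp [hy])
  have hjD : j ∈ D := hD j (by simp [hy])
  have key := two_mul_card_le_subs w δ i j (fun h => hij (H.hinj i hiD j hjD h)) t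
    (fun p hp hp0 => H.h1 p (H.P_of_lt hz (lt_of_le_of_lt hp hylt)) hp0)
    (fun p hp hc l hl => H.h2 p (H.P_of_lt hz (lt_of_le_of_lt hp hylt)) hc l
      (hD l (Multiset.mem_cons_of_mem hl)))
  rw [← hy] at key
  have hmap : (((subs w δ y).erase 0).erase (cls w δ y)).card ≤ (missing w D δ).card := by
    refine Finset.card_le_card_of_injOn (fun x => (δ k : ZMod w) + x) ?_ ?_
    · intro x hx
      simp only [Finset.coe_erase, Set.mem_sdiff, Finset.mem_coe, Set.mem_singleton_iff] at hx
      obtain ⟨⟨hx1, hx2⟩, hx3⟩ := hx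
      obtain ⟨p, hp, rfl⟩ := mem_subs.1 hx1
      have hp0 : p ≠ 0 := by
        rintro rfl
        exact hx2 (cls_zero w δ)
      have hpy : p ≠ y := by
        rintro rfl
        exact hx3 rfl
      have hlt : p < y := lt_of_le_of_ne hp hpy
      have hlt' : k ::ₘ p < k ::ₘ y := Multiset.cons_lt_cons_iff.2 hlt
      have hPk := H.P_of_lt hz hlt'
      rw [Finset.mem_coe, mem_missing]
      have e1 : (δ k : ZMod w) + cls w δ p = cls w δ (k ::ₘ p) := (cls_cons w δ k p).symm
      simp only [e1]
      refine ⟨H.h1 _ hPk (Multiset.cons_ne_zero), fun l hl => H.h2 _ hPk ?_ l hl⟩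
      rw [Multiset.card_cons]
      have := Multiset.card_pos.2 hp0
      omega
    · intro a _ b _ h
      simpa using h
  have e1 := Finset.pred_card_le_card_erase (s := subs w δ y) (a := (0 : ZMod w))
  have e2 := Finset.pred_card_le_card_erase (s := (subs w δ y).erase 0) (a := cls w δ y)
  omega

end CoreHyp

/-- the weight of a member of `B` -/
noncomputable def wt (D : Finset ι) (Z : Finset (Multiset ι)) (b : Multiset ι) : ℚ :=
  ∑ d ∈ D, if d ::ₘ b ∈ Z then ((count d b : ℚ) + 1) / ((card b : ℚ) + 1) else 0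

namespace CoreHyp

lemma card_eq_sum_wt (H : CoreHyp w D δ P U V B Z) :
    (Z.card : ℚ) = ∑ b ∈ B, wt D Z b := by
  simp only [wt]
  rw [Finset.sum_comm]
  have h1 : ∀ d ∈ D, (∑ b ∈ B, if d ::ₘ b ∈ Z then
      ((count d b : ℚ) + 1) / ((card b : ℚ) + 1) else 0) =
      ∑ z ∈ Z, (count d z : ℚ) / (card z : ℚ) := by
    intro d _
    rw [← Finset.sum_filter]
    have h2 : ∑ z ∈ Z, (count d z : ℚ) / (card z : ℚ) =
        ∑ z ∈ Z.filter (fun z => d ∈ z), (count d z : ℚ) / (card z : ℚ) := by
      rw [Finset.sum_filter]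
      refine Finset.sum_congr rfl fun z _ => ?_
      by_cases hd : d ∈ z
      · simp [hd]
      · simp [hd]
    rw [h2]
    refine Finset.sum_bij' (fun b _ => d ::ₘ b) (fun z _ => z.erase d) ?_ ?_ ?_ ?_ ?_
    · intro b hb
      simp only [Finset.mem_filter] at hb ⊢
      exact ⟨hb.2, Multiset.mem_cons_self d b⟩
    · intro z hz
      simp only [Finset.mem_filter] at hz ⊢
      rw [Multiset.cons_erase hz.2]
      exact ⟨((H.hZ z hz.1).2 d hz.2).2, hz.1⟩
    · intro b _
      simp
    · intro z hz
      simp only [Finset.mem_filter] at hz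
      exact Multiset.cons_erase hz.2
    · intro b _
      simp
  rw [Finset.sum_congr rfl h1, Finset.sum_comm]
  have h3 : ∀ z ∈ Z, ∑ d ∈ D, (count d z : ℚ) / (card z : ℚ) = 1 := by
    intro z hz
    rw [← Finset.sum_div]
    have h4 : ∑ d ∈ D, (count d z : ℚ) = (card z : ℚ) := by
      have := Multiset.sum_count_eq_card (s := D) (m := z)
        (fun a ha => ((H.hZ z hz).2 a ha).1)
      exact_mod_cast this
    rw [h4]
    refine div_self ?_
    have := Multiset.card_pos.2 (H.hZ z hz).1
    positivity
  rw [Finset.sum_congr rfl h3]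
  simp

end CoreHyp

lemma wt_nonneg (b : Multiset ι) : 0 ≤ wt D Z b := by
  refine Finset.sum_nonneg fun d _ => ?_
  split_ifs
  · positivity
  · exact le_rfl

lemma wt_le {b : Multiset ι} (hb : ∀ i ∈ b, i ∈ D) :
    wt D Z b ≤ ((card b : ℚ) + D.card) / ((card b : ℚ) + 1) := by
  have h1 : wt D Z b ≤ ∑ d ∈ D, ((count d b : ℚ) + 1) / ((card b : ℚ) + 1) := by
    refine Finset.sum_le_sum fun d _ => ?_
    split_ifs
    · exact le_rfl
    · positivity
  refine h1.trans (le_of_eq ?_)
  rw [← Finset.sum_div, Finset.sum_add_distrib]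
  have h4 : ∑ d ∈ D, (count d b : ℚ) = (card b : ℚ) := by
    have := Multiset.sum_count_eq_card (s := D) (m := b) hb
    exact_mod_cast this
  rw [h4]
  simp

namespace CoreHyp

/-- the weight of one missing class -/
theorem fiber_bound [NeZero w] (H : CoreHyp w D δ P U V B Z) (m : ZMod w)
    (hm : m ∈ missing w D δ) :
    ∑ b ∈ B.filter (fun b => cls w δ b = m), wt D Z b ≤
      (D.card : ℚ) + ((missing w D δ).card : ℚ) / 2 := by
  set S := B.filter (fun b => cls w δ b = m) with hS
  obtain ⟨hm0, hmD⟩ := mem_missing.1 hm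
  have hSB : ∀ b ∈ S, b ∈ B := fun b hb => (Finset.mem_filter.1 hb).1
  have hSm : ∀ b ∈ S, cls w δ b = m := fun b hb => (Finset.mem_filter.1 hb).2
  have hS0 : ∀ b ∈ S, b ≠ 0 := by
    rintro b hb rfl
    exact hm0 ((hSm 0 hb).symm.trans (cls_zero w δ))
  have hS2 : ∀ b ∈ S, 2 ≤ card b := by
    intro b hb
    by_contra hlt
    have h1 : card b = 1 := by
      have := Multiset.card_pos.2 (hS0 b hb)
      omega
    obtain ⟨i, rfl⟩ := Multiset.card_eq_one.1 h1
    have hiD := H.hBD _ (hSB _ hb) i (Multiset.mem_singleton_self i)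
    exact hmD i hiD ((hSm _ hb).symm.trans (cls_singleton w δ i))
  have hanti : ∀ b ∈ S, S.card ≤ card b := by
    intro b hb
    have := card_le_of_antichain S U V (fun x hx y hy hu hv =>
      H.hanti x (hSB x hx) y (hSB y hy) (hS0 x hx) (hS0 y hy)
        ((hSm x hx).trans (hSm y hy).symm) hu hv) b hb
    rwa [H.hUV b (hSB b hb) (hS0 b hb)] at this
  have hspos : (0 : ℚ) ≤ ((missing w D δ).card : ℚ) / 2 := by positivity
  by_cases hcase : ∃ b ∈ S, ∃ d ∈ D, d ::ₘ b ∈ Z ∧ ∃ i ∈ d ::ₘ b, ∃ j ∈ d ::ₘ b, i ≠ j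
  · obtain ⟨b, hb, d, hd, hz, i, hi, j, hj, hij⟩ := hcase
    obtain ⟨t1, ht1⟩ := Multiset.exists_cons_of_mem hi
    have hj1 : j ∈ t1 := by
      rw [ht1] at hj
      rcases Multiset.mem_cons.1 hj with h | h
      · exact absurd h.symm hij
      · exact h
    obtain ⟨t2, ht2⟩ := Multiset.exists_cons_of_mem hj1
    have hcard : card (d ::ₘ b) = card t2 + 2 := by
      rw [ht1, ht2, Multiset.card_cons, Multiset.card_cons]
    have hb2 := hS2 b hb
    rw [Multiset.card_cons] at hcard
    have ht2pos : t2 ≠ 0 := by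
      rintro rfl
      simp at hcard
      omega
    obtain ⟨k, hk⟩ := Multiset.exists_mem_of_ne_zero ht2pos
    obtain ⟨t3, ht3⟩ := Multiset.exists_cons_of_mem hk
    have hzeq : d ::ₘ b = k ::ₘ i ::ₘ j ::ₘ t3 := by
      rw [ht1, ht2, ht3, Multiset.cons_swap j k, Multiset.cons_swap i k]
    rw [hzeq] at hz
    have hlb := H.length_bound k i j t3 hz hij
    rw [ht3, Multiset.card_cons] at hcard
    have hh : S.card ≤ card b := hanti b hb
    have hSpos : 0 < S.card := Finset.card_pos.2 ⟨b, hb⟩
    have hDpos : 0 < D.card := Finset.card_pos.2 ⟨d, hd⟩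
    have hSq : (0 : ℚ) < (S.card : ℚ) := by exact_mod_cast hSpos
    have hDq : (1 : ℚ) ≤ (D.card : ℚ) := by exact_mod_cast hDpos
    have hterm : ∀ c ∈ S, wt D Z c ≤ 1 + ((D.card : ℚ) - 1) / (S.card : ℚ) := by
      intro c hc
      refine (wt_le (H.hBD c (hSB c hc))).trans ?_
      have hc1 : (S.card : ℚ) ≤ (card c : ℚ) := by exact_mod_cast hanti c hc
      have hpos : (0 : ℚ) < (card c : ℚ) + 1 := by positivity
      have e1 : ((card c : ℚ) + D.card) / ((card c : ℚ) + 1) =
          1 + ((D.card : ℚ) - 1) / ((card c : ℚ) + 1) := by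
        field_simp
        ring
      rw [e1]
      have : ((D.card : ℚ) - 1) / ((card c : ℚ) + 1) ≤ ((D.card : ℚ) - 1) / (S.card : ℚ) :=
        div_le_div_of_nonneg_left (by linarith) hSq (by linarith)
      linarith
    have hsum := Finset.sum_le_card_nsmul S (fun c => wt D Z c) _ hterm
    rw [nsmul_eq_mul, mul_add, mul_one, mul_div_cancel₀ _ hSq.ne'] at hsum
    have hb3 : 2 * S.card ≤ (missing w D δ).card + 2 := by omega
    have hb4 : 2 * (S.card : ℚ) ≤ ((missing w D δ).card : ℚ) + 2 := by exact_mod_cast hb3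
    linarith
  · push Not at hcase
    have hle : ∑ b ∈ S, wt D Z b ≤ (D.card : ℚ) := by
      simp only [wt]
      rw [Finset.sum_comm]
      have h1 : ∀ d ∈ D, (∑ b ∈ S, if d ::ₘ b ∈ Z then
          ((count d b : ℚ) + 1) / ((card b : ℚ) + 1) else 0) ≤ 1 := by
        intro d hd
        rw [← Finset.sum_filter]
        have h2 : (S.filter (fun b => d ::ₘ b ∈ Z)).card ≤ 1 := by
          rw [Finset.card_le_one]
          have aux : ∀ b ∈ S.filter (fun b => d ::ₘ b ∈ Z), b = replicate (card b) d := by
            intro b hb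
            rw [Finset.mem_filter] at hb
            rw [Multiset.eq_replicate]
            exact ⟨rfl, fun x hx => hcase b hb.1 d hd hb.2 x (Multiset.mem_cons_of_mem hx) d
              (Multiset.mem_cons_self d b)⟩
          have aux2 : ∀ b ∈ S.filter (fun b => d ::ₘ b ∈ Z),
              ∀ c ∈ S.filter (fun b => d ::ₘ b ∈ Z), ¬ card b < card c := by
            intro b hb c hc hlt
            have hbS := (Finset.mem_filter.1 hb).1
            have hcS := (Finset.mem_filter.1 hc).1
            have eb := aux b hb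
            have ec := aux c hc
            have hp : replicate (card c - card b) d ≤ c := by
              rw [ec, Multiset.card_replicate]
              exact Multiset.replicate_le_replicate d |>.2 (Nat.sub_le _ _)
            have hPp := H.hdown c (H.hB c (hSB c hcS)) _ hp
            have hp0 : replicate (card c - card b) d ≠ 0 := by
              rw [← Multiset.card_pos, Multiset.card_replicate]
              omega
            apply H.h1 _ hPp hp0
            have e1 : cls w δ c = cls w δ (replicate (card c - card b) d) + cls w δ b := by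
              conv_lhs => rw [ec]
              conv_rhs => rw [eb]
              rw [← cls_add, Multiset.card_replicate, ← Multiset.replicate_add]
              congr 2
              omega
            rw [hSm c hcS, hSm b hbS] at e1
            simpa using e1
          intro b hb c hc
          have h3 : card b = card c := by
            rcases lt_trichotomy (card b) (card c) with h | h | h
            · exact absurd h (aux2 b hb c hc)
            · exact h
            · exact absurd h (aux2 c hc b hb)
          rw [aux b hb, aux c hc, h3]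
        have h3 : ∀ b ∈ S.filter (fun b => d ::ₘ b ∈ Z),
            ((count d b : ℚ) + 1) / ((card b : ℚ) + 1) ≤ 1 := by
          intro b _
          have : (count d b : ℚ) ≤ (card b : ℚ) := by
            exact_mod_cast Multiset.count_le_card d b
          rw [div_le_one (by positivity)]
          linarith
        refine (Finset.sum_le_card_nsmul _ _ 1 h3).trans ?_
        simp only [nsmul_eq_mul, mul_one]
        exact_mod_cast h2
      refine (Finset.sum_le_sum h1).trans ?_
      simp
    linarith

/-- the main count -/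
theorem main [NeZero w] (H : CoreHyp w D δ P U V B Z) :
    2 * (Z.card + 1) + 3 * (missing w D δ).card ≤ w * (w + 1) := by
  have hcm := H.card_missing
  set s := (missing w D δ).card with hs
  set r := D.card with hr
  -- split the weights according to classes
  have h1 : (Z.card : ℚ) = ∑ m : ZMod w, ∑ b ∈ B.filter (fun b => cls w δ b = m), wt D Z b := by
    rw [H.card_eq_sum_wt]
    exact (Finset.sum_fiberwise B (fun b => cls w δ b) (fun b => wt D Z b)).symm
  have h0notin : (0 : ZMod w) ∉ D.image (fun i => (δ i : ZMod w)) := by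
    intro h
    obtain ⟨i, hi, hi0⟩ := Finset.mem_image.1 h
    exact H.hne i hi hi0
  have h2 : (∑ m : ZMod w, ∑ b ∈ B.filter (fun b => cls w δ b = m), wt D Z b) =
      (∑ m ∈ missing w D δ, ∑ b ∈ B.filter (fun b => cls w δ b = m), wt D Z b) +
      ((∑ b ∈ B.filter (fun b => cls w δ b = 0), wt D Z b) +
       ∑ i ∈ D, ∑ b ∈ B.filter (fun b => cls w δ b = (δ i : ZMod w)), wt D Z b) := by
    have h3 := Finset.sum_sdiff (s₁ := insert 0 (D.image (fun i => (δ i : ZMod w))))
      (s₂ := Finset.univ)
      (f := fun m => ∑ b ∈ B.filter (fun b => cls w δ b = m), wt D Z b) (Finset.subset_univ _)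
    rw [← h3, Finset.sum_insert h0notin,
      Finset.sum_image (fun i hi j hj h => H.hinj i hi j hj h)]
    rfl
  have h3 : (∑ m ∈ missing w D δ, ∑ b ∈ B.filter (fun b => cls w δ b = m), wt D Z b) ≤
      (s : ℚ) * ((r : ℚ) + (s : ℚ) / 2) := by
    have := Finset.sum_le_card_nsmul (missing w D δ)
      (fun m => ∑ b ∈ B.filter (fun b => cls w δ b = m), wt D Z b) _
      (fun m hm => H.fiber_bound m hm)
    rwa [nsmul_eq_mul] at this
  have h4 : (∑ b ∈ B.filter (fun b => cls w δ b = 0), wt D Z b) ≤ (r : ℚ) := by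
    have hsub : B.filter (fun b => cls w δ b = 0) ⊆ {0} := by
      intro b hb
      rw [Finset.mem_filter] at hb
      rw [Finset.mem_singleton]
      by_contra h
      exact H.h1 b (H.hB b hb.1) h hb.2
    refine (Finset.sum_le_sum_of_subset_of_nonneg hsub (fun b _ _ => wt_nonneg b)).trans ?_
    rw [Finset.sum_singleton]
    refine (wt_le (by simp)).trans (le_of_eq ?_)
    simp [hr]
  have h5 : (∑ i ∈ D, ∑ b ∈ B.filter (fun b => cls w δ b = (δ i : ZMod w)), wt D Z b) ≤
      (r : ℚ) * ((1 + (r : ℚ)) / 2) := by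
    have h6 : ∀ i ∈ D, ∑ b ∈ B.filter (fun b => cls w δ b = (δ i : ZMod w)), wt D Z b ≤
        (1 + (r : ℚ)) / 2 := by
      intro i hi
      have hsub : B.filter (fun b => cls w δ b = (δ i : ZMod w)) ⊆ {{i}} := by
        intro b hb
        rw [Finset.mem_filter] at hb
        rw [Finset.mem_singleton]
        have hb0 : b ≠ 0 := by
          rintro rfl
          exact H.hne i hi (by rw [← hb.2, cls_zero])
        have hb1 : card b = 1 := by
          by_contra h
          have := Multiset.card_pos.2 hb0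
          exact H.h2 b (H.hB b hb.1) (by omega) i hi hb.2
        obtain ⟨j, rfl⟩ := Multiset.card_eq_one.1 hb1
        have hjD := H.hBD _ hb.1 j (Multiset.mem_singleton_self j)
        have : j = i := H.hinj j hjD i hi (by rw [← hb.2, cls_singleton])
        rw [this]
      refine (Finset.sum_le_sum_of_subset_of_nonneg hsub (fun b _ _ => wt_nonneg b)).trans ?_
      rw [Finset.sum_singleton]
      refine (wt_le (by simpa using hi)).trans (le_of_eq ?_)
      simp [hr]
      norm_num
    have := Finset.sum_le_card_nsmul D _ _ h6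
    rwa [nsmul_eq_mul] at this
  have h7 : (Z.card : ℚ) ≤ (s : ℚ) * ((r : ℚ) + (s : ℚ) / 2) + ((r : ℚ) +
      (r : ℚ) * ((1 + (r : ℚ)) / 2)) := by
    rw [h1, h2]
    linarith
  have h8 : (w : ℚ) = (s : ℚ) + r + 1 := by
    exact_mod_cast hcm.symm
  have h9 : (2 * (Z.card + 1) + 3 * s : ℚ) ≤ w * (w + 1) := by
    rw [h8]
    nlinarith
  exact_mod_cast h9

end CoreHyp

end Pool.Agent.WidthRel
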