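import Mathlib

/-!
Definitions for the number of minimal relations of a numerical semigroup of given width.
-/

namespace Pool.Agent.WidthRel

/-- A submonoid of `ℕ` is a numerical semigroup if its complement is finite. -/
def IsNumerical (Γ : AddSubmonoid ℕ) : Prop := ((Γ : Set ℕ)ᶜ).Finite

/-- The minimal generators of a submonoid of `ℕ`: its nonzero elements that are not the sum of
two nonzero elements of it. -/
def minGens (Γ : AddSubmonoid ℕ) : Set ℕ :=
  {n | n ∈ Γ ∧ n ≠ 0 ∧ ∀ a ∈ Γ, ∀ b ∈ Γ, a + b = n → a = 0 ∨ b = 0}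

/-- The largest minimal generator exceeds the smallest one by `w`. -/
def HasWidth (Γ : AddSubmonoid ℕ) (w : ℕ) : Prop :=
  ∃ a b : ℕ, IsLeast (minGens Γ) a ∧ IsGreatest (minGens Γ) b ∧ b = a + w

/-- The homomorphism from the free commutative monoid on the minimal generators to `ℕ` which
sends every generator to itself. -/
noncomputable def facHom (Γ : AddSubmonoid ℕ) : (minGens Γ →₀ ℕ) →+ ℕ :=
  (Finsupp.linearCombination ℕ (fun x : minGens Γ => (x : ℕ))).toAddMonoidHom

/-- The set of pairs `σ` generates the kernel congruence of `facHom Γ`. -/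
def IsPresentation (Γ : AddSubmonoid ℕ) (σ : Set ((minGens Γ →₀ ℕ) × (minGens Γ →₀ ℕ))) : Prop :=
  addConGen (fun a b => (a, b) ∈ σ) = AddCon.ker (facHom Γ)

/-- A minimal presentation: an inclusion-minimal generating set of the kernel congruence. -/
def IsMinimalPresentation (Γ : AddSubmonoid ℕ)
    (σ : Set ((minGens Γ →₀ ℕ) × (minGens Γ →₀ ℕ))) : Prop :=
  Minimal (IsPresentation Γ) σ

/-- The number of minimal relations: the smallest cardinality of a generating set of the kernel
congruence. -/
noncomputable def rho (Γ : AddSubmonoid ℕ) : ℕ∞ :=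
  ⨅ σ : {σ : Set ((minGens Γ →₀ ℕ) × (minGens Γ →₀ ℕ)) // IsPresentation Γ σ}, σ.1.encard

/-- The supremum of the number of minimal relations over all numerical semigroups of width
`w`. -/
noncomputable def maxRel (w : ℕ) : ℕ∞ :=
  ⨆ Γ : {Γ : AddSubmonoid ℕ // IsNumerical Γ ∧ HasWidth Γ w}, rho Γ.1

end Pool.Agent.WidthRel
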