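import Pool.Agent.WidthRel.Bridge

/-!
The numerical semigroup `{0} ∪ [w+1, ∞)` has at least `choose (w+1) 2` minimal relations.
-/

namespace Pool.Agent.WidthRel

/-- the semigroup `{0} ∪ [w+1, ∞)` -/
def ordinary (w : ℕ) : AddSubmonoid ℕ where
  carrier := {n | n = 0 ∨ w + 1 ≤ n}
  zero_mem' := Or.inl rfl
  add_mem' := by
    rintro a b (ha | ha) (hb | hb)
    · left; omega
    · right; omega
    · right; omega
    · right; omega

lemma mem_ordinary {w n : ℕ} : n ∈ ordinary w ↔ n = 0 ∨ w + 1 ≤ n := Iff.rfl

lemma ordinary_numerical (w : ℕ) : IsNumerical (ordinary w) := by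
  refine (Set.finite_Iio (w + 1)).subset fun n hn => ?_
  rw [Set.mem_Iio]
  by_contra h
  exact hn (mem_ordinary.2 (Or.inr (by omega)))

lemma mem_minGens_ordinary {w n : ℕ} : n ∈ minGens (ordinary w) ↔ w + 1 ≤ n ∧ n ≤ 2 * w + 1 := by
  constructor
  · rintro ⟨h1, h2, h3⟩
    have h4 : w + 1 ≤ n := by
      rcases mem_ordinary.1 h1 with h | h
      · exact absurd h h2
      · exact h
    refine ⟨h4, ?_⟩
    by_contra hgt
    rcases h3 (w + 1) (mem_ordinary.2 (Or.inr le_rfl)) (n - (w + 1))
      (mem_ordinary.2 (Or.inr (by omega))) (by omega) with h | h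
    · omega
    · omega
  · rintro ⟨h1, h2⟩
    refine ⟨mem_ordinary.2 (Or.inr h1), by omega, fun a ha b hb hab => ?_⟩
    rcases mem_ordinary.1 ha with h | h
    · exact Or.inl h
    · rcases mem_ordinary.1 hb with h' | h'
      · exact Or.inr h'
      · omega

lemma ordinary_width (w : ℕ) : HasWidth (ordinary w) w := by
  refine ⟨w + 1, 2 * w + 1, ⟨mem_minGens_ordinary.2 ⟨le_rfl, by omega⟩, fun n hn =>
    (mem_minGens_ordinary.1 hn).1⟩, ⟨mem_minGens_ordinary.2 ⟨by omega, le_rfl⟩, fun n hn =>
    (mem_minGens_ordinary.1 hn).2⟩, by omega⟩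

/-- a minimal generator has only one factorization -/
lemma fac_unique {Γ : AddSubmonoid ℕ} (n : minGens Γ) (x : minGens Γ →₀ ℕ)
    (hx : facHom Γ x = (n : ℕ)) : x = Finsupp.single n 1 := by
  have hn0 := n.2.2.1
  have hx0 : x ≠ 0 := by
    rintro rfl
    rw [map_zero] at hx
    exact hn0 hx.symm
  obtain ⟨i, hi⟩ := Finsupp.ne_iff.1 hx0
  simp only [Finsupp.coe_zero, Pi.zero_apply] at hi
  have ex : x = (x - Finsupp.single i 1) + Finsupp.single i 1 := by
    rw [tsub_add_cancel_of_le]
    rw [Finsupp.single_le_iff]
    omega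
  set y := x - Finsupp.single i 1 with hy
  have hval : facHom Γ y + (i : ℕ) = (n : ℕ) := by
    rw [← facHom_single Γ i, ← map_add, ← ex, hx]
  have hmem : ∀ z : minGens Γ →₀ ℕ, facHom Γ z ∈ Γ := by
    intro z
    induction z using Finsupp.induction_linear with
    | zero => rw [map_zero]; exact Γ.zero_mem
    | add a b ha hb => rw [map_add]; exact Γ.add_mem ha hb
    | single a k =>
      have : facHom Γ (Finsupp.single a k) = k • (a : ℕ) := by simp [facHom]
      rw [this]
      exact Γ.nsmul_mem a.2.1 k
  have hy0 : facHom Γ y = 0 := by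
    rcases n.2.2.2 _ (hmem y) _ i.2.1 hval with h | h
    · exact h
    · exact absurd h i.2.2.1
  have hy00 : y = 0 := by
    by_contra hne
    obtain ⟨j, hj⟩ := Finsupp.ne_iff.1 hne
    simp only [Finsupp.coe_zero, Pi.zero_apply] at hj
    have ey : y = (y - Finsupp.single j 1) + Finsupp.single j 1 := by
      rw [tsub_add_cancel_of_le]
      rw [Finsupp.single_le_iff]
      omega
    rw [ey, map_add] at hy0
    have := facHom_pos Γ j
    omega
  rw [hy0, zero_add] at hval
  rw [ex, hy00, zero_add]
  congr 1
  exact Subtype.ext hval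

/-- sums of two generators, neither of them the first one -/
def gen (w : ℕ) (k : Fin w) : minGens (ordinary w) :=
  ⟨w + 2 + k, mem_minGens_ordinary.2 ⟨by omega, by have := k.2; omega⟩⟩

lemma gen_inj (w : ℕ) {i j : Fin w} (h : gen w i = gen w j) : i = j := by
  have := congrArg Subtype.val h
  simp only [gen] at this
  exact Fin.ext (by omega)

def base (w : ℕ) : minGens (ordinary w) :=
  ⟨w + 1, mem_minGens_ordinary.2 ⟨le_rfl, by omega⟩⟩

lemma gen_ne_base (w : ℕ) (i : Fin w) : gen w i ≠ base w := by
  intro h
  have := congrArg Subtype.val h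
  simp only [gen, base] at this
  omega

noncomputable def pairSum (w : ℕ) : Sym2 (Fin w) → (minGens (ordinary w) →₀ ℕ) :=
  Sym2.lift ⟨fun i j => Finsupp.single (gen w i) 1 + Finsupp.single (gen w j) 1,
    fun _ _ => add_comm _ _⟩

lemma pairSum_mk (w : ℕ) (i j : Fin w) :
    pairSum w s(i, j) = Finsupp.single (gen w i) 1 + Finsupp.single (gen w j) 1 := rfl

lemma single_cancel {ι : Type*} {a b : ι}
    (h : (Finsupp.single a 1 : ι →₀ ℕ) = Finsupp.single b 1) : a = b :=
  Finsupp.single_left_injective one_ne_zero h

lemma pairSum_inj (w : ℕ) : Function.Injective (pairSum w) := by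
  intro p q
  induction p using Sym2.ind with
  | _ i j =>
    induction q using Sym2.ind with
    | _ k l =>
      intro h
      rw [pairSum_mk, pairSum_mk] at h
      classical
      have h1 := DFunLike.congr_fun h (gen w i)
      simp only [Finsupp.coe_add, Pi.add_apply, Finsupp.single_eq_same] at h1
      by_cases hk : gen w k = gen w i
      · rw [hk] at h
        have h2 := gen_inj w (single_cancel (add_left_cancel h))
        rw [h2, gen_inj w hk]
      · by_cases hl : gen w l = gen w i
        · rw [hl, add_comm] at h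
          have h2 := gen_inj w (single_cancel (add_right_cancel h))
          rw [h2, gen_inj w hl]
          exact Sym2.eq_swap
        · exfalso
          rw [Finsupp.single_eq_of_ne (Ne.symm hk), Finsupp.single_eq_of_ne (Ne.symm hl)] at h1
          omega

lemma pairSum_val (w : ℕ) (i j : Fin w) :
    facHom (ordinary w) (pairSum w s(i, j)) = (w + 2 + i) + (w + 2 + j) := by
  rw [pairSum_mk, map_add, facHom_single, facHom_single]
  rfl

/-- the vertices `pairSum` are isolated -/
lemma isolated (w : ℕ) (p : Sym2 (Fin w)) (x : minGens (ordinary w) →₀ ℕ)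
    (h : Adj (facHom (ordinary w)) (pairSum w p) x) : x = pairSum w p := by
  have key : ∀ a b : minGens (ordinary w), ∀ x : minGens (ordinary w) →₀ ℕ, x a ≠ 0 →
      facHom (ordinary w) x = (a : ℕ) + (b : ℕ) →
      x = Finsupp.single a 1 + Finsupp.single b 1 := by
    intro a b x hxa hx
    have ex : x = Finsupp.single a 1 + (x - Finsupp.single a 1) := by
      rw [add_tsub_cancel_of_le]
      rw [Finsupp.single_le_iff]
      omega
    have h1 : facHom (ordinary w) (x - Finsupp.single a 1) = (b : ℕ) := by
      have := hx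
      rw [ex, map_add, facHom_single] at this
      omega
    rw [ex, fac_unique b _ h1]
  induction p using Sym2.ind with
  | _ i j =>
    obtain ⟨h1, c, hc1, hc2⟩ := h
    rw [pairSum_mk, map_add, facHom_single, facHom_single] at h1
    rw [pairSum_mk] at hc1 ⊢
    classical
    by_cases hci : c = gen w i
    · subst hci
      exact key _ _ x hc2 h1.symm
    · by_cases hcj : c = gen w j
      · subst hcj
        rw [add_comm]
        exact key _ _ x hc2 (by rw [← h1, add_comm])
      · exfalso
        apply hc1
        rw [Finsupp.add_apply, Finsupp.single_eq_of_ne hci, Finsupp.single_eq_of_ne hcj,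
          add_zero]

/-- every pair sum has a factorization using the smallest generator -/
lemma exists_base (w : ℕ) (p : Sym2 (Fin w)) : ∃ y : minGens (ordinary w) →₀ ℕ,
    facHom (ordinary w) (pairSum w p) = facHom (ordinary w) y ∧ y (base w) ≠ 0 := by
  classical
  induction p using Sym2.ind with
  | _ i j =>
    have hmem : (w + 3 + i + j : ℕ) ∈ ordinary w := mem_ordinary.2 (Or.inr (by omega))
    obtain ⟨b, hb⟩ := exists_multiset hmem
    refine ⟨Multiset.toFinsupp b + Finsupp.single (base w) 1, ?_, ?_⟩
    · rw [pairSum_val, map_add, facHom_toFinsupp, hb, facHom_single]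
      simp only [base]
      omega
    · rw [Finsupp.add_apply, Finsupp.single_eq_same]
      omega

lemma pairSum_base (w : ℕ) (p : Sym2 (Fin w)) : pairSum w p (base w) = 0 := by
  induction p using Sym2.ind with
  | _ i j =>
    rw [pairSum_mk, Finsupp.add_apply, Finsupp.single_eq_of_ne (gen_ne_base w i).symm,
      Finsupp.single_eq_of_ne (gen_ne_base w j).symm, add_zero]

theorem lower (w : ℕ) :
    (w + 1).choose 2 ≤ Module.finrank ℚ (relSpace (facHom (ordinary w))) := by
  classical
  set φ := facHom (ordinary w) with hφ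
  choose y hy1 hy2 using exists_base w
  -- the indicator functions of the isolated vertices
  let f : Sym2 (Fin w) → Quot (Adj φ) → ℚ := fun p =>
    Quot.lift (fun x => if x = pairSum w p then 1 else 0) (by
      intro a b hab
      have : a = pairSum w p ↔ b = pairSum w p := by
        constructor
        · rintro rfl
          exact isolated w p b hab
        · rintro rfl
          refine isolated w p a ⟨hab.1.symm, ?_⟩
          obtain ⟨i, h1, h2⟩ := hab.2
          exact ⟨i, h2, h1⟩
      simp only [this])
  let L : (Quot (Adj φ) →₀ ℚ) →ₗ[ℚ] (Sym2 (Fin w) → ℚ) :=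
    LinearMap.pi fun p => Finsupp.linearCombination ℚ (f p)
  have hfin : Module.Finite ℚ (relSpace φ) := by
    obtain ⟨σ₀, h₀, hfin₀, -⟩ := exists_presentation (ordinary_numerical w) (ordinary_width w)
    rw [hφ, ← Gen.span_eq (φ := facHom (ordinary w)) h₀]
    exact Module.Finite.span_of_finite ℚ (hfin₀.image _)
  let v : Sym2 (Fin w) → relSpace φ := fun p =>
    ⟨vec φ (pairSum w p) (y p), Submodule.subset_span ⟨_, _, hy1 p, rfl⟩⟩
  have hL : ∀ p, (L ∘ₗ (relSpace φ).subtype) (v p) = Pi.single p 1 := by
    intro p
    funext q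
    have h1 : y p ≠ pairSum w q := by
      intro h
      apply hy2 p
      rw [h]
      exact pairSum_base w q
    have h2 : (L ∘ₗ (relSpace φ).subtype) (v p) q =
        (if pairSum w p = pairSum w q then (1 : ℚ) else 0) -
          (if y p = pairSum w q then (1 : ℚ) else 0) := by
      simp only [L, v, LinearMap.comp_apply, Submodule.subtype_apply, LinearMap.pi_apply, vec,
        map_sub, Finsupp.linearCombination_single, one_smul]
      rfl
    rw [h2, if_neg h1, sub_zero]
    by_cases hpq : p = q
    · subst hpq; simp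
    · rw [if_neg (fun h => hpq (pairSum_inj w h)), Pi.single_eq_of_ne (Ne.symm hpq)]
  have hli : LinearIndependent ℚ v := by
    apply LinearIndependent.of_comp (L ∘ₗ (relSpace φ).subtype)
    have : (⇑(L ∘ₗ (relSpace φ).subtype) ∘ v) = fun p => Pi.single p (1 : ℚ) := by
      funext p
      exact hL p
    rw [this]
    have h3 := (Pi.basisFun ℚ (Sym2 (Fin w))).linearIndependent
    have h4 : (⇑(Pi.basisFun ℚ (Sym2 (Fin w)))) = fun p => Pi.single p (1 : ℚ) := by
      funext p
      exact Pi.basisFun_apply ℚ _ p
    rwa [h4] at h3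
  have := hli.fintype_card_le_finrank
  rwa [Sym2.card, Fintype.card_fin] at this

end Pool.Agent.WidthRel
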