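import Pool.Agent.WidthRel.Lower

/-!
The maximal number of minimal relations of a numerical semigroup of width `w`.
-/

namespace Pool.Agent.WidthRel

lemma two_mul_choose (w : ℕ) : 2 * (w + 1).choose 2 = w * (w + 1) := by
  have h := Nat.choose_two_right (w + 1)
  rw [Nat.add_sub_cancel] at h
  have h2 : 2 ∣ (w + 1) * w := by
    rw [mul_comm]; exact (Nat.even_mul_succ_self w).two_dvd
  rw [h, Nat.mul_div_cancel' h2, mul_comm]

theorem rho_le_choose {Γ : AddSubmonoid ℕ} (hΓ : IsNumerical Γ) {w : ℕ} (hw : HasWidth Γ w) :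
    rho Γ ≤ ((w + 1).choose 2 : ℕ) := by
  obtain ⟨r, hr, hle⟩ := rho_le hΓ hw
  rw [hr]
  have := two_mul_choose w
  exact_mod_cast (by omega : r ≤ (w + 1).choose 2)

theorem rho_ordinary (w : ℕ) : rho (ordinary w) = ((w + 1).choose 2 : ℕ) := by
  refine le_antisymm (rho_le_choose (ordinary_numerical w) (ordinary_width w)) ?_
  rw [rho_eq (ordinary_numerical w)]
  exact_mod_cast lower w

theorem maxRel_eq (w : ℕ) : maxRel w = ((w + 1).choose 2 : ℕ) := by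
  refine le_antisymm (iSup_le fun Γ => rho_le_choose Γ.2.1 Γ.2.2) ?_
  rw [← rho_ordinary w]
  exact le_iSup (fun Γ : {Γ : AddSubmonoid ℕ // IsNumerical Γ ∧ HasWidth Γ w} => rho Γ.1)
    ⟨ordinary w, ordinary_numerical w, ordinary_width w⟩

theorem main :
    (∀ w : ℕ, maxRel w = ((w + 1).choose 2 : ℕ)) ∧
    (∀ w : ℕ, ∃ Γ : AddSubmonoid ℕ, IsNumerical Γ ∧ HasWidth Γ w ∧
      rho Γ = ((w + 1).choose 2 : ℕ)) ∧
    (∀ (Γ : AddSubmonoid ℕ) (w : ℕ), IsNumerical Γ → HasWidth Γ w →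
      (minGens Γ).ncard ≤ w + 1 ∧
      ∃ r : ℕ, rho Γ = r ∧ 2 * r + 3 * (w + 1 - (minGens Γ).ncard) ≤ w * (w + 1)) ∧
    (∀ Γ : AddSubmonoid ℕ, IsNumerical Γ → (∃ σ, IsMinimalPresentation Γ σ) ∧
      ∀ σ, IsMinimalPresentation Γ σ → σ.encard = rho Γ) ∧
    (∀ Γ : AddSubmonoid ℕ, IsLeast {A : Set ℕ | AddSubmonoid.closure A = Γ} (minGens Γ)) :=
  ⟨maxRel_eq, fun w => ⟨ordinary w, ordinary_numerical w, ordinary_width w, rho_ordinary w⟩,
    fun _ _ hΓ hw => ⟨ncard_minGens_le hw, rho_le hΓ hw⟩, fun _ hΓ => minimal_presentation hΓ,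
    isLeast_minGens⟩

end Pool.Agent.WidthRel
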