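import Pool.Agent.WidthRel.Count

/-!
An explicit small generating set of the kernel congruence of a numerical semigroup of given width.
-/

set_option linter.unusedSectionVars false

namespace Pool.Agent.WidthRel

open Multiset

section
variable {ι : Type*} [DecidableEq ι]

/-- all generators lie in `[m, m+w]`, and both ends are generators -/
structure Gens (g : ι → ℕ) (i0 i1 : ι) (m w : ℕ) : Prop where
  inj : Function.Injective g
  mpos : 0 < m
  wpos : 0 < w
  e0 : g i0 = m
  e1 : g i1 = m + w
  lo : ∀ i, m ≤ g i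
  hi : ∀ i, g i ≤ m + w

variable {g : ι → ℕ} {i0 i1 : ι} {m w : ℕ}

/-- neither `m` nor `m + w` can be subtracted inside the semigroup -/
def PB (g : ι → ℕ) (m w : ℕ) (b : Multiset ι) : Prop :=
  (∀ c : Multiset ι, tot g c + m ≠ tot g b) ∧ (∀ c : Multiset ι, tot g c + (m + w) ≠ tot g b)

lemma tot_mono {b c : Multiset ι} (h : b ≤ c) : tot g b ≤ tot g c := by
  obtain ⟨d, rfl⟩ := Multiset.le_iff_exists_add.1 h
  simp

omit [DecidableEq ι] in
lemma PB_down {b : Multiset ι} (hb : PB g m w b) (p : Multiset ι) (hp : p ≤ b) : PB g m w p := by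
  obtain ⟨q, rfl⟩ := Multiset.le_iff_exists_add.1 hp
  refine ⟨fun c hc => hb.1 (c + q) ?_, fun c hc => hb.2 (c + q) ?_⟩
  · rw [tot_add, tot_add, ← hc]; ring
  · rw [tot_add, tot_add, ← hc]; ring

lemma PB_congr {b c : Multiset ι} (h : tot g b = tot g c) (hb : PB g m w b) : PB g m w c := by
  unfold PB at hb ⊢
  rwa [h] at hb

lemma PB_not_mem0 (G : Gens g i0 i1 m w) {b : Multiset ι} (hb : PB g m w b) : i0 ∉ b := by
  intro h
  obtain ⟨c, rfl⟩ := Multiset.exists_cons_of_mem h
  exact hb.1 c (by rw [tot_cons, G.e0]; ring)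

lemma PB_not_mem1 (G : Gens g i0 i1 m w) {b : Multiset ι} (hb : PB g m w b) : i1 ∉ b := by
  intro h
  obtain ⟨c, rfl⟩ := Multiset.exists_cons_of_mem h
  exact hb.2 c (by rw [tot_cons, G.e1]; ring)

/-- offsets -/
abbrev off (g : ι → ℕ) (m : ℕ) (i : ι) : ℕ := g i - m

lemma tot_off (G : Gens g i0 i1 m w) (b : Multiset ι) :
    tot g b = card b * m + tot (off g m) b := by
  induction b using Multiset.induction_on with
  | empty => simp
  | cons a s ih =>
    rw [tot_cons, tot_cons, Multiset.card_cons, ih]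
    have := G.lo a
    have h2 : g a = m + off g m a := by simp only [off]; omega
    rw [h2]; ring

lemma off_pos (G : Gens g i0 i1 m w) {i : ι} (h0 : i ≠ i0) : 0 < off g m i := by
  have h1 := G.lo i
  have h2 : g i ≠ m := fun h => h0 (G.inj (h.trans G.e0.symm))
  simp only [off]
  omega

lemma off_lt (G : Gens g i0 i1 m w) {i : ι} (h1 : i ≠ i1) : off g m i < w := by
  have h2 := G.hi i
  have h3 : g i ≠ m + w := fun h => h1 (G.inj (h.trans G.e1.symm))
  have := G.lo i
  simp only [off]
  omega

lemma tot_lt {δ : ι → ℕ} {b : Multiset ι} (h : ∀ i ∈ b, δ i + 1 ≤ w) :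
    tot δ b + card b ≤ card b * w := by
  induction b using Multiset.induction_on with
  | empty => simp
  | cons a s ih =>
    have h1 := ih (fun i hi => h i (Multiset.mem_cons_of_mem hi))
    have h2 := h a (Multiset.mem_cons_self a s)
    rw [tot_cons, Multiset.card_cons]
    calc δ a + tot δ s + (card s + 1) = (tot δ s + card s) + (δ a + 1) := by ring
      _ ≤ card s * w + w := by omega
      _ = (card s + 1) * w := by ring

/-- if the value of `b` exceeds a value by a nontrivial combination of `m` and `m + w` then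
`PB` fails -/
lemma not_PB_of_eq (G : Gens g i0 i1 m w) {b c : Multiset ι} (u v : ℕ) (huv : 0 < u + v)
    (h : tot g b = tot g c + u * m + v * (m + w)) : ¬ PB g m w b := by
  intro hb
  rcases Nat.eq_zero_or_pos u with hu | hu
  · have hv : 0 < v := by omega
    obtain ⟨v', rfl⟩ : ∃ v', v = v' + 1 := ⟨v - 1, by omega⟩
    apply hb.2 (c + replicate v' i1)
    rw [h, hu, tot_add, tot_replicate, G.e1]
    ring
  · obtain ⟨u', rfl⟩ : ∃ u', u = u' + 1 := ⟨u - 1, by omega⟩
    apply hb.1 (c + replicate u' i0 + replicate v i1)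
    rw [h, tot_add, tot_add, tot_replicate, tot_replicate, G.e0, G.e1]
    ring

lemma cls_ne_zero_of_PB (G : Gens g i0 i1 m w) {b : Multiset ι} (hb : PB g m w b) (hb0 : b ≠ 0) :
    cls w (off g m) b ≠ 0 := by
  intro h
  have hlt := tot_lt (w := w) (δ := off g m) (b := b) (fun i hi => off_lt G (by
    rintro rfl; exact PB_not_mem1 G hb hi))
  rw [cls, ZMod.natCast_eq_zero_iff] at h
  obtain ⟨v, hv⟩ := h
  have hc := Multiset.card_pos.2 hb0
  have hw := G.wpos
  have hvlt : v < card b := by
    by_contra hge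
    push Not at hge
    have : card b * w ≤ w * v := by
      rw [mul_comm w v]; exact Nat.mul_le_mul_right w hge
    omega
  obtain ⟨u, hu⟩ : ∃ u, card b = u + v := ⟨card b - v, by omega⟩
  refine not_PB_of_eq G (c := 0) u v (by omega) ?_ hb
  rw [tot_off G b, hv, hu, tot_zero]
  ring

lemma cls_ne_off_of_PB (G : Gens g i0 i1 m w) {b : Multiset ι} (hb : PB g m w b)
    (hb2 : 2 ≤ card b) (i : ι) (hi1 : i ≠ i1) :
    cls w (off g m) b ≠ (off g m i : ZMod w) := by
  intro h
  have hlt := tot_lt (w := w) (δ := off g m) (b := b) (fun i hi => off_lt G (by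
    rintro rfl; exact PB_not_mem1 G hb hi))
  have hiw := off_lt G hi1
  rw [cls, ZMod.natCast_eq_natCast_iff] at h
  have hmod : tot (off g m) b % w = off g m i := by
    rw [h]; exact Nat.mod_eq_of_lt hiw
  set v := tot (off g m) b / w with hv
  have hdiv : tot (off g m) b = w * v + off g m i := by
    rw [← hmod, hv]; exact (Nat.div_add_mod _ _).symm
  have hw := G.wpos
  have hvlt : v < card b := by
    by_contra hge
    push Not at hge
    have : card b * w ≤ w * v := by
      rw [mul_comm w v]; exact Nat.mul_le_mul_right w hge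
    omega
  obtain ⟨u, hu⟩ : ∃ u, card b = u + v + 1 := ⟨card b - v - 1, by omega⟩
  refine not_PB_of_eq G (c := {i}) u v (by omega) ?_ hb
  have hgi : g i = m + off g m i := by have := G.lo i; simp only [off]; omega
  have : tot g {i} = g i := by simp [tot]
  rw [tot_off G b, hdiv, hu, this, hgi]
  ring

/-- the two coordinates -/
def Vc (g : ι → ℕ) (m w : ℕ) (b : Multiset ι) : ℕ := tot (off g m) b / w
def Uc (g : ι → ℕ) (m w : ℕ) (b : Multiset ι) : ℕ := card b - 1 - tot (off g m) b / w

lemma UV_eq (G : Gens g i0 i1 m w) {b : Multiset ι} (hb : PB g m w b) (hb0 : b ≠ 0) :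
    Uc g m w b + Vc g m w b + 1 = card b := by
  have hlt := tot_lt (w := w) (δ := off g m) (b := b) (fun i hi => off_lt G (by
    rintro rfl; exact PB_not_mem1 G hb hi))
  have hc := Multiset.card_pos.2 hb0
  have h : tot (off g m) b / w < card b := by
    rw [Nat.div_lt_iff_lt_mul G.wpos]
    omega
  rw [Uc, Vc]
  omega

/-- incomparable coordinates -/
lemma anti (G : Gens g i0 i1 m w) {b c : Multiset ι} (hb : PB g m w b) (hc : PB g m w c)
    (hb0 : b ≠ 0) (hc0 : c ≠ 0) (h : cls w (off g m) b = cls w (off g m) c)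
    (hU : Uc g m w b ≤ Uc g m w c) (hV : Vc g m w b ≤ Vc g m w c) : tot g b = tot g c := by
  have h1 := UV_eq G hb hb0
  have h2 := UV_eq G hc hc0
  rw [cls, cls, ZMod.natCast_eq_natCast_iff] at h
  have hb' : tot (off g m) b = w * Vc g m w b + tot (off g m) b % w :=
    (Nat.div_add_mod _ _).symm
  have hc' : tot (off g m) c = w * Vc g m w c + tot (off g m) b % w := by
    have h3 : tot (off g m) b % w = tot (off g m) c % w := h
    rw [h3]; exact (Nat.div_add_mod _ _).symm
  obtain ⟨u, hu⟩ := Nat.exists_eq_add_of_le hU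
  obtain ⟨v, hv⟩ := Nat.exists_eq_add_of_le hV
  have key : tot g c = tot g b + u * m + v * (m + w) := by
    rw [tot_off G c, tot_off G b, ← h1, ← h2, hc', hb', hu, hv]
    have : (w * Vc g m w b + tot (off g m) b % w) % w = tot (off g m) b % w := by
      rw [Nat.mul_add_mod, Nat.mod_mod]
    rw [this]
    ring
  by_cases h0 : 0 < u + v
  · exact absurd hc (not_PB_of_eq G u v h0 key)
  · have hu0 : u = 0 := by omega
    have hv0 : v = 0 := by omega
    rw [key, hu0, hv0]; ring

end

end Pool.Agent.WidthRel
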