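import Pool.Agent.WidthRel.Upper

/-!
The explicit generating set, part two.
-/

set_option linter.unusedSectionVars false

namespace Pool.Agent.WidthRel

open Multiset

section
variable {ι : Type*} [DecidableEq ι]
variable {g : ι → ℕ} {i0 i1 : ι} {m w : ℕ}
variable {S : Type*} [AddCommMonoid S] [LinearOrder S] [IsOrderedCancelAddMonoid S]
  [WellFoundedLT S]

/-- canonical factorizations of the elements from which neither end can be subtracted -/
def Bset (g : ι → ℕ) (m w : ℕ) (ω : Multiset ι →+ S) : Set (Multiset ι) :=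
  {b | PB g m w b ∧ ∀ c, tot g c = tot g b → ω b ≤ ω c}

/-- nonempty multisets of inner letters all of whose one-letter deletions are canonical -/
def Zset (g : ι → ℕ) (i0 i1 : ι) (m w : ℕ) (ω : Multiset ι →+ S) : Set (Multiset ι) :=
  {z | z ≠ 0 ∧ ∀ i ∈ z, (i ≠ i0 ∧ i ≠ i1) ∧ z.erase i ∈ Bset g m w ω}

variable {ω : Multiset ι →+ S}

lemma ω_cons (i : ι) (b : Multiset ι) : ω (i ::ₘ b) = ω {i} + ω b := by
  rw [← Multiset.singleton_add, AddMonoidHom.map_add]

lemma Bset_inj (hω : Function.Injective ω) {b c : Multiset ι} (hb : b ∈ Bset g m w ω)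
    (hc : c ∈ Bset g m w ω) (h : tot g b = tot g c) : b = c :=
  hω (le_antisymm (hb.2 c h.symm) (hc.2 b h))

lemma Bset_finite (hω : Function.Injective ω)
    (hfin : {n : ℕ | ¬ ∃ b : Multiset ι, tot g b = n}.Finite) : (Bset g m w ω).Finite := by
  have h1 : (tot g '' Bset g m w ω).Finite := by
    refine Set.Finite.subset ((Set.finite_Iio m).union (hfin.image (fun n => n + m))) ?_
    rintro _ ⟨b, hb, rfl⟩
    by_cases h : tot g b < m
    · exact Or.inl h
    · right
      refine ⟨tot g b - m, ?_, by simp only; omega⟩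
      rintro ⟨c, hc⟩
      exact hb.1.1 c (by omega)
  exact Set.Finite.of_finite_image h1 (fun b hb c hc h => Bset_inj hω hb hc h)

lemma exists_Bset {b : Multiset ι} (hb : PB g m w b) :
    ∃ c ∈ Bset g m w ω, tot g c = tot g b := by
  obtain ⟨c, hc, hmin⟩ := (InvImage.wf ω (wellFounded_lt (α := S))).has_min
    {c | tot g c = tot g b} ⟨b, rfl⟩
  refine ⟨c, ⟨PB_congr (Eq.symm hc) hb, fun d hd => ?_⟩, hc⟩
  have := hmin d (hd.trans hc)
  exact not_lt.1 this

lemma Bset_erase {b : Multiset ι} (hb : b ∈ Bset g m w ω) {i : ι} (hi : i ∈ b) :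
    b.erase i ∈ Bset g m w ω := by
  refine ⟨PB_down hb.1 _ (Multiset.erase_le i b), fun c hc => ?_⟩
  have h1 : tot g (i ::ₘ c) = tot g b := by
    conv_rhs => rw [← Multiset.cons_erase hi]
    rw [tot_cons, tot_cons, hc]
  have h2 := hb.2 _ h1
  conv_lhs at h2 => rw [← Multiset.cons_erase hi]
  rw [ω_cons, ω_cons] at h2
  exact le_of_add_le_add_left h2

lemma Zset_finite [Finite ι] (hB : (Bset g m w ω).Finite) : (Zset g i0 i1 m w ω).Finite := by
  refine Set.Finite.subset (Set.Finite.image2 (fun (i : ι) b => i ::ₘ b) (Set.finite_univ) hB) ?_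
  rintro z ⟨hz0, hz⟩
  obtain ⟨i, hi⟩ := Multiset.exists_mem_of_ne_zero hz0
  exact ⟨i, trivial, z.erase i, (hz i hi).2, Multiset.cons_erase hi⟩

lemma Bset_subset (G : Gens g i0 i1 m w) {b : Multiset ι} (hb : b ∈ Bset g m w ω) (hb0 : b ≠ 0) :
    b ∈ Zset g i0 i1 m w ω := by
  refine ⟨hb0, fun i hi => ⟨⟨?_, ?_⟩, Bset_erase hb hi⟩⟩
  · rintro rfl; exact PB_not_mem0 G hb.1 hi
  · rintro rfl; exact PB_not_mem1 G hb.1 hi

/-- the count -/
theorem count_main [Fintype ι] (G : Gens g i0 i1 m w) (hω : Function.Injective ω)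
    (B Z : Finset (Multiset ι)) (hB : ∀ b, b ∈ B ↔ b ∈ Bset g m w ω)
    (hZ : ∀ z, z ∈ Z ↔ z ∈ Zset g i0 i1 m w ω) :
    2 * (Z.card + 1) + 3 * (w + 1 - Fintype.card ι) ≤ w * (w + 1) := by
  classical
  have : NeZero w := ⟨G.wpos.ne'⟩
  set D : Finset ι := (Finset.univ.erase i0).erase i1 with hD
  have memD : ∀ i, i ∈ D ↔ i ≠ i0 ∧ i ≠ i1 := by
    intro i
    simp only [hD, Finset.mem_erase, Finset.mem_univ, and_true]
    tauto
  have hi01 : i0 ≠ i1 := by
    intro h
    have h1 := G.e0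
    have h2 := G.e1
    rw [h, h2] at h1
    have := G.wpos
    omega
  have cardD : D.card + 2 = Fintype.card ι := by
    have h1 : i1 ∈ Finset.univ.erase i0 := by simp [hi01.symm]
    have h2 := Finset.card_erase_add_one h1
    have h3 := Finset.card_erase_add_one (Finset.mem_univ i0)
    rw [Finset.card_univ] at h3
    rw [hD]
    omega
  have H : CoreHyp w D (off g m) (PB g m w) (Uc g m w) (Vc g m w) B Z := by
    refine ⟨?_, ?_, fun b hb p hp => PB_down hb p hp, ?_, ?_, ?_, ?_, ?_, ?_, ?_⟩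
    · intro i hi j hj h
      rw [memD] at hi hj
      rw [ZMod.natCast_eq_natCast_iff, Nat.ModEq, Nat.mod_eq_of_lt (off_lt G hi.2),
        Nat.mod_eq_of_lt (off_lt G hj.2)] at h
      apply G.inj
      have h1 := G.lo i
      have h2 := G.lo j
      simp only [off] at h
      omega
    · intro i hi h
      rw [memD] at hi
      rw [ZMod.natCast_eq_zero_iff] at h
      have h1 := Nat.le_of_dvd (off_pos G hi.1) h
      have h2 := off_lt G hi.2
      omega
    · exact fun b hb hb0 => cls_ne_zero_of_PB G hb hb0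
    · intro b hb hb2 i hi
      rw [memD] at hi
      exact cls_ne_off_of_PB G hb hb2 i hi.2
    · intro b hb
      exact ((hB b).1 hb).1
    · intro b hb i hi
      rw [memD]
      have hP := ((hB b).1 hb).1
      exact ⟨by rintro rfl; exact PB_not_mem0 G hP hi, by rintro rfl; exact PB_not_mem1 G hP hi⟩
    · intro b hb hb0
      exact UV_eq G ((hB b).1 hb).1 hb0
    · intro b hb c hc hb0 hc0 h hU hV
      have hb' := (hB b).1 hb
      have hc' := (hB c).1 hc
      exact Bset_inj hω hb' hc' (anti G hb'.1 hc'.1 hb0 hc0 h hU hV)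
    · intro z hz
      have hz' := (hZ z).1 hz
      refine ⟨hz'.1, fun i hi => ⟨(memD i).2 (hz'.2 i hi).1, (hB _).2 (hz'.2 i hi).2⟩⟩
  have h1 := H.main
  have h2 := H.card_missing
  have h3 : (missing w D (off g m)).card = w + 1 - Fintype.card ι := by omega
  rw [← h3]
  exact h1

/-- uniqueness along a chain of steps `m + w` -/
lemma chain_unique (G : Gens g i0 i1 m w) {β k k' : ℕ} (hk : k < k') {a : Multiset ι}
    (ha : tot g a = β + (k + 1) * (m + w)) (h0 : i0 ∈ a) :
    ∃ e : Multiset ι, tot g e + m = β + k' * (m + w) := by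
  obtain ⟨c, rfl⟩ := Multiset.exists_cons_of_mem h0
  obtain ⟨j, rfl⟩ : ∃ j, k' = k + 1 + j := ⟨k' - (k + 1), by omega⟩
  refine ⟨c + replicate j i1, ?_⟩
  rw [tot_cons, G.e0] at ha
  rw [tot_add, tot_replicate, G.e1]
  calc tot g c + j * (m + w) + m = (m + tot g c) + j * (m + w) := by ring
    _ = β + (k + 1) * (m + w) + j * (m + w) := by rw [ha]
    _ = _ := by ring

/-- descending along a chain -/
lemma descend (G : Gens g i0 i1 m w) (ω : Multiset ι →+ S) (t : ℕ) :
    (∃ b : Multiset ι, tot g b = t) → (∀ e : Multiset ι, tot g e + m ≠ t) →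
    ∃ b ∈ Bset g m w ω, ∃ k, t = tot g b + k * (m + w) := by
  induction t using Nat.strong_induction_on with
  | _ t ih =>
    rintro ⟨b, rfl⟩ hm
    by_cases h : ∃ c : Multiset ι, tot g c + (m + w) = tot g b
    · obtain ⟨c, hc⟩ := h
      have hlt : tot g c < tot g b := by have := G.mpos; omega
      obtain ⟨b', hb', k, hk⟩ := ih (tot g c) hlt ⟨c, rfl⟩ (by
        intro e he
        apply hm (i1 ::ₘ e)
        rw [tot_cons, G.e1]
        omega)
      refine ⟨b', hb', k + 1, ?_⟩
      rw [← hc, hk]; ring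
    · push Not at h
      obtain ⟨c, hc, hcb⟩ := exists_Bset (ω := ω) (b := b) ⟨hm, h⟩
      exact ⟨c, hc, 0, by rw [hcb]; ring⟩

end

end Pool.Agent.WidthRel
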